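import Pool.Agent.H340Z.CM.Det

set_option autoImplicit false
set_option maxHeartbeats 400000

namespace Pool.Agent.H340Z.CM

open Filter Topology Finset

def Phi (m : ℕ) {k : ℕ} (h : ℕ → St k) : ℕ → ℕ → ℕ
  | 0, _ => 0
  | i + 1, c => (univ.filter fun t =>
      h i t = c + 1 ∧ h (i + 2) t = c + 1 ∧ h (i + 1) t = c ∧ c ≤ m).card

def Walk (m : ℕ) {k : ℕ} (x0 : St k) (σ : ℤ) (h : ℕ → St k) : Prop :=
  h 0 = x0 ∧ (∀ i, Valid m (h i) ∧ Step (h i) (h (i + 1))) ∧ ∃ L, ∀ i, L ≤ i → h i = gr m k σ i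

def cnt {k : ℕ} (x : St k) (c : ℕ) : ℕ := (univ.filter fun t => x t ≤ c).card

theorem cnt_le {k : ℕ} (x : St k) (c : ℕ) : cnt x c ≤ k := by
  simpa [cnt] using card_filter_le univ (fun t => x t ≤ c)

theorem le_iff_lt_cnt {k : ℕ} {x : St k} (hx : Monotone x) (t : Fin k) (c : ℕ) :
    x t ≤ c ↔ (t : ℕ) < cnt x c := by
  constructor
  · intro h
    have : Iic t ⊆ univ.filter fun s => x s ≤ c := fun s hs => by
      simpa using (hx (mem_Iic.1 hs)).trans h
    have := card_le_card this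
    rw [Fin.card_Iic] at this
    exact this
  · intro h
    by_contra hc
    have : (univ.filter fun s => x s ≤ c) ⊆ Iio t := fun s hs => by
      rw [mem_Iio]
      by_contra hs'
      exact hc ((hx (not_lt.1 hs')).trans (by simpa using hs))
    have := card_le_card this
    rw [Fin.card_Iio] at this
    exact absurd h (not_lt.2 this)

theorem cnt_zero {m k : ℕ} {x : St k} (hx : Valid m x) : cnt x 0 = 0 := by
  rw [cnt, card_eq_zero, filter_eq_empty_iff]
  intro t _ h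
  have := (hx.2 t).1
  push_cast at h
  omega

theorem cnt_full {k : ℕ} {x : St k} {c : ℕ} (h : ∀ t, x t ≤ c) : cnt x c = k := by
  rw [cnt, filter_true_of_mem fun t _ => h t, card_univ, Fintype.card_fin]

theorem cnt_eq_of_iff {k : ℕ} {x : St k} {c n : ℕ} (hn : n ≤ k)
    (h : ∀ t, x t ≤ c ↔ (t : ℕ) < n) : cnt x c = n := by
  rw [cnt, filter_congr fun t _ => h t]
  exact Fin.card_filter_val_lt.trans (min_eq_right hn)

section
variable {m k : ℕ} {x0 : St k} {σ : ℤ} (hσ : ∀ t, (x0 t - σ) % 2 = 0)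
include hσ

theorem Walk.par {h : ℕ → St k} (hw : Walk m x0 σ h) (i : ℕ) (t : Fin k) :
    ((i : ℤ) + h i t - σ) % 2 = 0 := by
  induction i with
  | zero => rw [hw.1]; simpa using hσ t
  | succ i ih =>
    have := (hw.2.1 i).2 t
    push_cast
    omega

theorem Walk.key {h : ℕ → St k} (hw : Walk m x0 σ h) (i c : ℕ) (hc : c + 1 ≤ m)
    (hp : ((i : ℤ) + c - σ) % 2 = 0) :
    cnt (h (i + 1)) (c + 1) = Phi m h (i + 1) (c + 1) + max (cnt (h i) c) (cnt (h (i + 2)) c) := by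
  have hmax : max (cnt (h i) c) (cnt (h (i + 2)) c) =
      (univ.filter fun t => h i t ≤ c ∨ h (i + 2) t ≤ c).card := by
    have e : ∀ t, (h i t ≤ c ∨ h (i + 2) t ≤ c) ↔
        (t : ℕ) < max (cnt (h i) c) (cnt (h (i + 2)) c) := by
      intro t
      rw [le_iff_lt_cnt (hw.2.1 i).1.1, le_iff_lt_cnt (hw.2.1 (i + 2)).1.1, lt_max_iff]
    rw [filter_congr fun t _ => e t]
    exact (Fin.card_filter_val_lt.trans (min_eq_right (max_le (cnt_le _ _) (cnt_le _ _)))).symm
  rw [hmax, Phi, cnt, ← card_union_of_disjoint, ← filter_or]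
  · congr 1
    refine filter_congr fun t _ => ?_
    have a1 := (hw.2.1 i).2 t
    have a2 := (hw.2.1 (i + 1)).2 t
    have a3 := hw.par hσ i t
    push_cast
    rw [show i + 1 + 1 = i + 2 by ring] at a2
    omega
  · rw [disjoint_filter]
    intro t _
    push_cast
    omega

end

def Gf {k : ℕ} (x0 : St k) (f : ℕ → ℕ → ℕ) : ℕ → ℕ → ℕ
  | 0, _ => 0
  | c + 1, 0 => cnt x0 (c + 1)
  | c + 1, i + 1 => f (i + 1) (c + 1) + max (Gf x0 f c i) (Gf x0 f c (i + 2))

def Adm (m : ℕ) {k : ℕ} (x0 : St k) (σ : ℤ) (f : ℕ → ℕ → ℕ) : Prop :=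
  (∀ c i : ℕ, c ≤ m → ((i : ℤ) + c - σ) % 2 = 0 → Gf x0 f c i ≤ k) ∧
    ∀ c : ℕ, c ≤ m → ((1 : ℤ) + c - σ) % 2 = 0 → Gf x0 f c 1 ≤ cnt x0 (c + 1)

theorem Gf_zero {m k : ℕ} {x0 : St k} (hx : Valid m x0) (f : ℕ → ℕ → ℕ) (c : ℕ) :
    Gf x0 f c 0 = cnt x0 c := by
  cases c with
  | zero => rw [cnt_zero hx, Gf]
  | succ c => rw [Gf]

section
variable {m k : ℕ} {x0 : St k} {σ : ℤ} (hσ : ∀ t, (x0 t - σ) % 2 = 0)
include hσ

theorem Walk.Gf_eq {h : ℕ → St k} (hw : Walk m x0 σ h) (c : ℕ) : ∀ i : ℕ, c ≤ m →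
    ((i : ℤ) + c - σ) % 2 = 0 → Gf x0 (Phi m h) c i = cnt (h i) c := by
  induction c with
  | zero => intro i _ _; rw [cnt_zero (hw.2.1 i).1, Gf]
  | succ c ih =>
    intro i hc hp
    cases i with
    | zero => rw [Gf, hw.1]
    | succ i =>
      push_cast at hp
      rw [Gf, hw.key hσ i c hc (by omega), ih i (by omega) (by omega),
        ih (i + 2) (by omega) (by push_cast; omega)]

theorem Walk.adm {h : ℕ → St k} (hw : Walk m x0 σ h) : Adm m x0 σ (Phi m h) := by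
  refine ⟨fun c i hc hp => ?_, fun c hc hp => ?_⟩
  · rw [hw.Gf_eq hσ c i hc hp]; exact cnt_le _ _
  · rw [hw.Gf_eq hσ c 1 hc (by simpa using hp), ← hw.1]
    refine card_le_card fun t ht => ?_
    have := (hw.2.1 0).2 t
    simp only [mem_filter, mem_univ, true_and, zero_add] at ht this ⊢
    push_cast
    omega

theorem Walk.inj {h h' : ℕ → St k} (hw : Walk m x0 σ h) (hw' : Walk m x0 σ h')
    (e : Phi m h = Phi m h') : h = h' := by
  have key : ∀ {h h' : ℕ → St k}, Walk m x0 σ h → Walk m x0 σ h' → Phi m h = Phi m h' →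
      ∀ i t, h i t ≤ m → h' i t ≤ h i t := by
    intro h h' hw hw' e i t hle
    have h1 := ((hw.2.1 i).1.2 t).1
    obtain ⟨c, hc⟩ : ∃ c : ℕ, h i t = c := ⟨(h i t).toNat, by omega⟩
    have hp := hw.par hσ i t
    rw [hc] at hp hle ⊢
    rw [le_iff_lt_cnt (hw'.2.1 i).1.1, ← hw'.Gf_eq hσ c i (by omega) hp, ← e,
      hw.Gf_eq hσ c i (by omega) hp, ← le_iff_lt_cnt (hw.2.1 i).1.1, hc]
  funext i t
  have a1 := key hw hw' e i t
  have a2 := key hw' hw e.symm i t
  have a3 := hw.par hσ i t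
  have a4 := hw'.par hσ i t
  have a5 := (hw.2.1 i).1.2 t
  have a6 := (hw'.2.1 i).1.2 t
  omega

theorem Walk.supp {h : ℕ → St k} (hw : Walk m x0 σ h) {i c : ℕ} (hne : Phi m h i c ≠ 0) :
    1 ≤ i ∧ 1 ≤ c ∧ c ≤ m ∧ ((i : ℤ) + c - σ) % 2 = 0 := by
  cases i with
  | zero => exact absurd rfl hne
  | succ i =>
    obtain ⟨t, ht⟩ := card_ne_zero.1 hne
    simp only [mem_filter, mem_univ, true_and] at ht
    have a1 := hw.par hσ (i + 1) t
    have a2 := ((hw.2.1 (i + 1)).1.2 t).1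
    omega

theorem exists_walk (hx : Valid m x0) {f : ℕ → ℕ → ℕ} {N : ℕ}
    (hs : ∀ i c, f i c ≠ 0 → 1 ≤ i ∧ i ≤ N ∧ 1 ≤ c ∧ c ≤ m ∧ ((i : ℤ) + c - σ) % 2 = 0)
    (ha : Adm m x0 σ f) : ∃ h, Walk m x0 σ h ∧ Phi m h = f := by
  classical
  set G : ℕ → ℕ → ℕ := fun c i => if c ≤ m then Gf x0 f c i else if i = 0 then cnt x0 c else k
    with hG
  have G0 : ∀ c, G c 0 = cnt x0 c := fun c => by simp [hG, Gf_zero hx]
  have Gle : ∀ c i : ℕ, ((i : ℤ) + c - σ) % 2 = 0 → G c i ≤ k := by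
    intro c i hp
    simp only [hG]
    split_ifs with h1 h2
    · exact ha.1 c i h1 hp
    · exact cnt_le _ _
    · exact le_rfl
  have Gtop : ∀ c i : ℕ, m < c → ((i : ℤ) + c - σ) % 2 = 0 → G c i = k := by
    intro c i hc hp
    simp only [hG, if_neg (not_le.2 hc)]
    split_ifs with h2
    · subst h2
      refine cnt_full fun t => ?_
      have := hσ t
      have := (hx.2 t).2
      omega
    · rfl
  have up : ∀ c i : ℕ, ((i : ℤ) + c - σ) % 2 = 0 → G c i ≤ G (c + 1) (i + 1) := by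
    intro c i hp
    by_cases hc : c + 1 ≤ m
    · simp only [hG, if_pos hc, if_pos (show c ≤ m by omega), Gf]
      omega
    · rw [Gtop (c + 1) (i + 1) (by omega) (by push_cast; omega)]
      exact Gle c i hp
  have down : ∀ c i : ℕ, ((i : ℤ) + 1 + c - σ) % 2 = 0 → G c (i + 1) ≤ G (c + 1) i := by
    intro c i hp
    by_cases hc : c + 1 ≤ m
    · cases i with
      | zero =>
        rw [G0]
        simp only [hG, if_pos (show c ≤ m by omega)]
        exact ha.2 c (by omega) (by simpa using hp)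
      | succ i =>
        simp only [hG, if_pos hc, if_pos (show c ≤ m by omega), Gf]
        rw [show i + 1 + 1 = i + 2 by ring]
        omega
    · rw [Gtop (c + 1) i (by omega) (by push_cast; omega)]
      exact Gle c (i + 1) (by push_cast; omega)
  have mono : ∀ d c i : ℕ, ((i : ℤ) + c - σ) % 2 = 0 → G c i ≤ G (c + 2 * d) i := by
    intro d c i hp
    induction d with
    | zero => exact le_rfl
    | succ d ih =>
      exact ih.trans ((up _ i (by push_cast; omega)).trans (down _ i (by push_cast; omega)))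
  have ex : ∀ (i : ℕ) (t : Fin k), ∃ c : ℕ, ((i : ℤ) + c - σ) % 2 = 0 ∧ (t : ℕ) < G c i := by
    intro i t
    by_cases hp : ((i : ℤ) + (m + 1 : ℕ) - σ) % 2 = 0
    · exact ⟨m + 1, hp, by rw [Gtop _ _ (by omega) hp]; exact t.2⟩
    · have hp' : ((i : ℤ) + (m + 2 : ℕ) - σ) % 2 = 0 := by push_cast at hp ⊢; omega
      exact ⟨m + 2, hp', by rw [Gtop _ _ (by omega) hp']; exact t.2⟩
  set h : ℕ → St k := fun i t => (Nat.find (ex i t) : ℕ) with hh
  have hchar : ∀ (i : ℕ) (t : Fin k) (c : ℕ), ((i : ℤ) + c - σ) % 2 = 0 →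
      (h i t ≤ c ↔ (t : ℕ) < G c i) := by
    intro i t c hp
    simp only [hh, Nat.cast_le]
    constructor
    · intro hle
      have h1 := Nat.find_spec (ex i t)
      obtain ⟨d, hd⟩ : ∃ d, c = Nat.find (ex i t) + 2 * d :=
        ⟨(c - Nat.find (ex i t)) / 2, by have := h1.1; omega⟩
      rw [hd]
      exact h1.2.trans_le (mono d _ i h1.1)
    · intro hlt
      exact Nat.find_min' _ ⟨hp, hlt⟩
  have hself : ∀ (i : ℕ) (t : Fin k), ∃ c : ℕ, h i t = c ∧ ((i : ℤ) + c - σ) % 2 = 0 ∧ (t : ℕ) < G c i :=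
    fun i t => ⟨_, rfl, Nat.find_spec (ex i t)⟩
  have hval : ∀ i, Valid m (h i) := by
    intro i
    refine ⟨fun s t hst => ?_, fun t => ⟨?_, ?_⟩⟩
    · obtain ⟨c, h1, h2, h3⟩ := hself i t
      rw [h1, hchar i s c h2]
      exact lt_of_le_of_lt hst h3
    · obtain ⟨c, h1, h2, h3⟩ := hself i t
      rcases c with _ | c
      · simp [hG, Gf] at h3
      · omega
    · by_cases hp : ((i : ℤ) + (m + 1 : ℕ) - σ) % 2 = 0
      · have := (hchar i t _ hp).2 (by rw [Gtop _ _ (by omega) hp]; exact t.2)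
        omega
      · have hp' : ((i : ℤ) + (m + 2 : ℕ) - σ) % 2 = 0 := by push_cast at hp ⊢; omega
        have := (hchar i t _ hp').2 (by rw [Gtop _ _ (by omega) hp']; exact t.2)
        omega
  have hstep : ∀ i, Step (h i) (h (i + 1)) := by
    intro i t
    obtain ⟨c, h1, h2, h3⟩ := hself i t
    obtain ⟨c', h1', h2', h3'⟩ := hself (i + 1) t
    have a1 := (hchar (i + 1) t (c + 1) (by push_cast; omega)).2 (h3.trans_le (up c i h2))
    have a2 := (hchar i t (c' + 1) (by push_cast at h2' ⊢; omega)).2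
      (h3'.trans_le (down c' i (by simpa using h2')))
    push_cast at h2' a1 a2
    omega
  have h0 : h 0 = x0 := by
    funext t
    obtain ⟨c, h1, h2, h3⟩ := hself 0 t
    rw [G0, ← le_iff_lt_cnt hx.1] at h3
    have b1 := (hx.2 t).1
    obtain ⟨c', hc'⟩ : ∃ c' : ℕ, x0 t = c' := ⟨(x0 t).toNat, by omega⟩
    have b2 := hσ t
    have := (hchar 0 t c' (by push_cast; omega)).2 (by rw [G0, ← le_iff_lt_cnt hx.1, hc'])
    omega
  have hfar : ∀ c i : ℕ, N + c < i → Gf x0 f c i = 0 := by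
    intro c
    induction c with
    | zero => intro i _; rw [Gf]
    | succ c ih =>
      intro i hi
      obtain ⟨i, rfl⟩ : ∃ j, i = j + 1 := ⟨i - 1, by omega⟩
      rw [Gf, ih i (by omega), ih (i + 2) (by omega)]
      by_contra hne
      have := hs (i + 1) (c + 1) (by simpa using hne)
      omega
  have hw : Walk m x0 σ h := by
    refine ⟨h0, fun i => ⟨hval i, hstep i⟩, N + m + 1, fun i hi => funext fun t => ?_⟩
    obtain ⟨c, h1, h2, h3⟩ := hself i t
    have b1 := ((hval i).2 t).2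
    have b2 : m < c := by
      by_contra hc
      simp only [hG, if_pos (not_lt.1 hc)] at h3
      rw [hfar c i (by omega)] at h3
      omega
    simp only [gr]
    split_ifs <;> omega
  refine ⟨h, hw, ?_⟩
  have hcnt : ∀ c i : ℕ, c ≤ m → ((i : ℤ) + c - σ) % 2 = 0 → cnt (h i) c = Gf x0 f c i := by
    intro c i hc hp
    refine cnt_eq_of_iff (ha.1 c i hc hp) fun t => ?_
    rw [hchar i t c hp]
    simp only [hG, if_pos hc]
  funext i c
  by_cases hic : 1 ≤ i ∧ 1 ≤ c ∧ c ≤ m ∧ ((i : ℤ) + c - σ) % 2 = 0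
  · obtain ⟨i, rfl⟩ : ∃ j, i = j + 1 := ⟨i - 1, by omega⟩
    obtain ⟨c, rfl⟩ : ∃ j, c = j + 1 := ⟨c - 1, by omega⟩
    obtain ⟨-, -, h1, h2⟩ := hic
    have := hw.key hσ i c h1 (by push_cast at h2; omega)
    rw [hcnt _ _ h1 h2, hcnt c i (by omega) (by push_cast at h2; omega),
      hcnt c (i + 2) (by omega) (by push_cast at h2 ⊢; omega), Gf] at this
    omega
  · have e1 : Phi m h i c = 0 := by
      by_contra hne
      exact hic (hw.supp hσ hne)
    have e2 : f i c = 0 := by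
      by_contra hne
      have := hs i c hne
      exact hic ⟨this.1, this.2.2⟩
    rw [e1, e2]

end

end Pool.Agent.H340Z.CM
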