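import Pool.Agent.H340Z.CM.FB

set_option autoImplicit false

namespace Pool.Agent.H340Z.CM

open Filter Topology Finset

abbrev St (k : ℕ) := Fin k → ℤ

def Valid (m : ℕ) {k : ℕ} (x : St k) : Prop := Monotone x ∧ ∀ t, 1 ≤ x t ∧ x t ≤ m + 2

def Step {k : ℕ} (x y : St k) : Prop := ∀ t, y t = x t + 1 ∨ y t = x t - 1

def prev {k : ℕ} (y : St k) (A : Finset (Fin k)) : St k :=
  fun t => if t ∈ A then y t - 1 else y t + 1

open Classical in
noncomputable def Hist (m : ℕ) {k : ℕ} (h0 : St k) : ℕ → (ℕ → St k) → Finset (ℕ → St k)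
  | 0, τ => if τ 0 = h0 then {τ} else ∅
  | L + 1, τ => (univ.filter fun A => Valid m (prev (τ (L + 1)) A)).biUnion fun A =>
      Hist m h0 L (Function.update τ L (prev (τ (L + 1)) A))

def val (m : ℕ) {k : ℕ} (x y z : St k) : ℕ :=
  (univ.filter fun t => x t = y t + 1 ∧ z t = y t + 1 ∧ y t ≤ m).card

def wt (m : ℕ) {k : ℕ} (L : ℕ) (h : ℕ → St k) : ℕ :=
  ∑ i ∈ range L, (i + 1) * val m (h i) (h (i + 1)) (h (i + 2))

theorem mem_Hist {m k : ℕ} {h0 : St k} (L : ℕ) : ∀ {τ h : ℕ → St k},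
    h ∈ Hist m h0 L τ ↔
      h 0 = h0 ∧ (∀ i < L, Valid m (h i) ∧ Step (h i) (h (i + 1))) ∧ ∀ i, L ≤ i → h i = τ i := by
  induction L with
  | zero =>
    intro τ h
    simp only [Hist, not_lt_zero, false_imp_iff, implies_true, true_and, zero_le, true_imp_iff]
    split_ifs with hτ
    · simp only [mem_singleton]
      constructor
      · rintro rfl; exact ⟨hτ, fun _ => rfl⟩
      · rintro ⟨-, h2⟩; exact funext h2
    · simp only [notMem_empty, false_iff, not_and]
      intro h1 h2
      exact hτ (h2 0 ▸ h1)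
  | succ L ih =>
    intro τ h
    simp only [Hist, mem_biUnion, mem_filter, mem_univ, true_and, ih]
    constructor
    · rintro ⟨A, hA, h1, h2, h3⟩
      have hL : h L = prev (τ (L + 1)) A := by rw [h3 L le_rfl, Function.update_self]
      have hL' : ∀ i, L + 1 ≤ i → h i = τ i := fun i hi => by
        rw [h3 i (by omega), Function.update_of_ne (by omega)]
      refine ⟨h1, fun i hi => ?_, hL'⟩
      rcases Nat.lt_succ_iff_lt_or_eq.1 hi with hi | rfl
      · exact h2 i hi
      · rw [hL, hL' _ le_rfl]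
        refine ⟨hA, fun t => ?_⟩
        unfold prev
        split_ifs <;> omega
    · rintro ⟨h1, h2, h3⟩
      have hL : h L = prev (τ (L + 1)) (univ.filter fun t => τ (L + 1) t = h L t + 1) := by
        funext t
        have := (h2 L (by omega)).2 t
        rw [h3 _ le_rfl] at this
        simp only [prev, mem_filter, mem_univ, true_and]
        split_ifs <;> omega
      refine ⟨_, hL ▸ (h2 L (by omega)).1, h1, fun i hi => h2 i (by omega), fun i hi => ?_⟩
      rcases hi.eq_or_lt with rfl | hi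
      · rw [Function.update_self]; exact hL
      · rw [Function.update_of_ne (by omega), h3 i hi]

theorem prev_cases {k : ℕ} (y : St k) (A : Finset (Fin k)) (t : Fin k) :
    prev y A t = y t - 1 ∨ prev y A t = y t + 1 := by
  unfold prev; split_ifs <;> simp

theorem prev_inj {k : ℕ} (y : St k) {A B : Finset (Fin k)} (h : prev y A = prev y B) : A = B := by
  ext t
  have := congrFun h t
  simp only [prev] at this
  split_ifs at this with h1 h2 h2 <;> simp [h1, h2] <;> omega

open Classical in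
theorem sum_Hist_succ {m k : ℕ} {h0 : St k} (q : ℂ) (L : ℕ) (τ : ℕ → St k) :
    ∑ h ∈ Hist m h0 (L + 1) τ, q ^ wt m (L + 1) h =
      ∑ A ∈ univ.filter fun A => Valid m (prev (τ (L + 1)) A),
        q ^ ((L + 1) * val m (prev (τ (L + 1)) A) (τ (L + 1)) (τ (L + 2))) *
          ∑ h ∈ Hist m h0 L (Function.update τ L (prev (τ (L + 1)) A)), q ^ wt m L h := by
  rw [Hist, sum_biUnion]
  · refine sum_congr rfl fun A _ => ?_
    rw [mul_sum]
    refine sum_congr rfl fun h hh => ?_
    obtain ⟨-, -, h3⟩ := (mem_Hist L).1 hh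
    rw [wt, sum_range_succ, pow_add, mul_comm, h3 L le_rfl, h3 (L + 1) (by omega),
      h3 (L + 2) (by omega), Function.update_self, Function.update_of_ne (by omega),
      Function.update_of_ne (by omega), wt]
  · intro A _ B _ hAB
    rw [Function.onFun, disjoint_left]
    intro h hA hB
    have h1 := ((mem_Hist L).1 hA).2.2 L le_rfl
    have h2 := ((mem_Hist L).1 hB).2.2 L le_rfl
    rw [Function.update_self] at h1 h2
    exact hAB (prev_inj _ (h1.symm.trans h2))

/-- the entries of the determinant -/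
noncomputable def col (r : ℂ) (m k : ℕ) (L : ℕ) (t : ℕ) (y z a : ℤ) : ℂ :=
  if z = y + 1 then
    (if y ≤ m then r ^ ((L : ℤ) - (y + 2 * t)) * G r (k + 1) (m + 2 * k + 1) L a (y + 2 * t) t
      else G r (k + 1) (m + 2 * k + 1) L a (y + 2 * t) (t + 1))
  else
    (if y ≤ m + 2 then G r (k + 1) (m + 2 * k + 1) L a (y + 2 * t) (t + 1)
      else r ^ ((L : ℤ) + (y + 2 * t)) * G r (k + 1) (m + 2 * k + 1) L a (y + 2 * t) (t + 2))

noncomputable def Mat (r : ℂ) (m : ℕ) {k : ℕ} (h0 : St k) (L : ℕ) (y z : St k) :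
    Matrix (Fin k) (Fin k) ℂ :=
  Matrix.of fun t s => col r m k L t (y t) (z t) (h0 s + 2 * (s : ℕ))

theorem det_row_smul {k : ℕ} (B : Matrix (Fin k) (Fin k) ℂ) {i j : Fin k} (hij : i ≠ j) (c : ℂ)
    (h : B i = c • B j) : B.det = 0 := by
  rw [← Matrix.updateRow_eq_self B i, h, Matrix.det_updateRow_smul,
    Matrix.det_updateRow_eq_zero hij.symm, mul_zero]

section
variable {r : ℂ} (hr : ‖r‖ < 1) (h0 : r ≠ 0)
include hr h0

theorem col_succ (m k L t : ℕ) (y z a : ℤ) (hy : y ≤ m + 2) (hz : z ≤ m + 2)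
    (hpar : ((L : ℤ) + 1 + y - a) % 2 = 0) :
    col r m k (L + 1) t y z a = col r m k L t (y - 1) y a +
      (if z = y + 1 ∧ y ≤ m then (r ^ 2) ^ (L + 1) else 1) * col r m k L t (y + 1) y a := by
  have hp : (0 : ℤ) < k + 1 := by positivity
  have hM : (0 : ℤ) < m + 2 * k + 1 := by positivity
  have hpar' : ((L : ℤ) + 1 + (y + 2 * t) - a) % 2 = 0 := by omega
  have P1 := fun ρ => G_P1 hr h0 hp hM L a (y + 2 * t) ρ hpar'
  have P2 := fun ρ => G_P2 hr h0 hp hM L a (y + 2 * t) ρ hpar'
  have e1 : y - 1 + 2 * (t : ℤ) = y + 2 * t - 1 := by ring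
  have e2 : y + 1 + 2 * (t : ℤ) = y + 2 * t + 1 := by ring
  have e3 : ((L : ℤ) - (y + 2 * t - 1)) = L + 1 - (y + 2 * t) := by ring
  have e4 : ((L : ℤ) + (y + 2 * t + 1)) = L + 1 + (y + 2 * t) := by ring
  have c1 : y = y - 1 + 1 := by ring
  have c2 : ¬ y = y + 1 + 1 := by omega
  simp only [col, if_pos c1, if_neg c2, e1, e2, e3, e4]
  by_cases hz1 : z = y + 1
  · by_cases hy1 : y ≤ m
    · rw [if_pos hz1, if_pos hy1, if_pos (by omega), if_pos ⟨hz1, hy1⟩, if_pos (by omega), P2,
        mul_add, ← mul_assoc, ← zpow_add₀ h0, ← pow_mul, ← zpow_natCast]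
      push_cast
      congr 3
      ring
    · rw [if_pos hz1, if_neg hy1, if_pos (by omega), if_neg (by omega), if_pos (by omega), P1,
        one_mul, add_sub_cancel_right]
  · by_cases hy1 : y ≤ m + 1
    · rw [if_neg hz1, if_pos hy, if_pos (by omega), if_neg (by omega), if_pos (by omega), P1,
        one_mul, add_sub_cancel_right]
    · rw [if_neg hz1, if_pos hy, if_neg (by omega), if_neg (by omega), if_neg (by omega), P2,
        one_mul, add_assoc (t : ℤ), one_add_one_eq_two]

omit hr h0 in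
theorem det_invalid (m : ℕ) {k : ℕ} (x0 : St k) (σ : ℤ) (hσ : ∀ t, (x0 t - σ) % 2 = 0) (L : ℕ)
    (y : St k) (hy : Valid m y) (hpar : ∀ t, ((L : ℤ) + 1 + y t - σ) % 2 = 0)
    (A : Finset (Fin k)) (hA : ¬ Valid m (prev y A)) : (Mat r m x0 L (prev y A) y).det = 0 := by
  by_cases hmono : Monotone (prev y A)
  · have : ∃ t, ¬ (1 ≤ prev y A t ∧ prev y A t ≤ m + 2) := by
      by_contra hc
      push Not at hc
      exact hA ⟨hmono, fun t => ⟨(hc t).1, (hc t).2⟩⟩
    obtain ⟨t, ht⟩ := this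
    have hk : 0 < k := Fin.pos t
    rcases not_and_or.1 ht with ht | ht
    · obtain ⟨t0, ht0⟩ : ∃ t0 : Fin k, (t0 : ℕ) = 0 := ⟨⟨0, hk⟩, rfl⟩
      have h1 : prev y A t0 ≤ prev y A t := hmono (by simp [ht0, Fin.le_def])
      have h2 := (hy.2 t0).1
      have h3 : prev y A t0 = 0 ∧ y t0 = 1 := by
        have := prev_cases y A t0
        omega
      refine Matrix.det_eq_zero_of_row_eq_zero t0 fun s => ?_
      have h4 := hσ s
      have h5 := hpar t0
      simp only [Mat, Matrix.of_apply, col, h3.1, h3.2, ht0]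
      rw [if_pos (by norm_num), if_pos (by positivity)]
      simp only [Nat.cast_zero, mul_zero, add_zero]
      rw [G_wall0 _ _ _ _ _ (by omega), mul_zero]
    · obtain ⟨t1, ht1⟩ : ∃ t1 : Fin k, (t1 : ℕ) = k - 1 := ⟨⟨k - 1, by omega⟩, rfl⟩
      have h1 : prev y A t ≤ prev y A t1 := hmono (by
        have := t.2
        simp only [ht1, Fin.le_def]; omega)
      have h2 := (hy.2 t1).2
      have h3 : prev y A t1 = m + 3 ∧ y t1 = m + 2 := by
        have := prev_cases y A t1
        omega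
      refine Matrix.det_eq_zero_of_row_eq_zero t1 fun s => ?_
      have h4 := hσ s
      have h5 := hpar t1
      simp only [Mat, Matrix.of_apply, col, h3.1, h3.2, ht1]
      rw [if_neg (by omega), if_neg (by omega)]
      have e1 : (m : ℤ) + 3 + 2 * ((k - 1 : ℕ) : ℤ) = m + 2 * k + 1 := by omega
      have e2 : ((k - 1 : ℕ) : ℤ) + 2 = k + 1 := by omega
      rw [e1, e2, G_wallM _ _ _ _ _ (by omega), mul_zero]
  · obtain ⟨k', rfl⟩ : ∃ k', k = k' + 1 := by
      rcases k with _ | k'
      · exact absurd (fun a => a.elim0) hmono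
      · exact ⟨k', rfl⟩
    rw [Fin.monotone_iff_le_succ] at hmono
    push Not at hmono
    obtain ⟨u, hu⟩ := hmono
    have h1 : y u.castSucc ≤ y u.succ := hy.1 (Fin.castSucc_le_succ u)
    have h2 := hpar u.castSucc
    have h3 := hpar u.succ
    have h4 : prev y A u.castSucc = y u.castSucc + 1 ∧ prev y A u.succ = y u.castSucc - 1 ∧
        y u.succ = y u.castSucc := by
      revert hu; unfold prev; split_ifs <;> omega
    have hne : u.castSucc ≠ u.succ := (Fin.castSucc_lt_succ).ne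
    have e1 : y u.castSucc - 1 + 2 * (((u : ℕ) + 1 : ℕ) : ℤ) = y u.castSucc + 1 + 2 * (u : ℕ) := by
      push_cast; ring
    have r1 : ∀ s, Mat r m x0 L (prev y A) y u.castSucc s =
        col r m (k' + 1) L u (y u.castSucc + 1) (y u.castSucc) (x0 s + 2 * (s : ℕ)) := by
      intro s; simp only [Mat, Matrix.of_apply, h4.1, Fin.val_castSucc]
    have r2 : ∀ s, Mat r m x0 L (prev y A) y u.succ s =
        col r m (k' + 1) L (u + 1) (y u.castSucc - 1) (y u.castSucc) (x0 s + 2 * (s : ℕ)) := by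
      intro s; simp only [Mat, Matrix.of_apply, h4.2.1, h4.2.2, Fin.val_succ]
    by_cases hc : y u.castSucc ≤ m + 1
    · refine det_row_smul _ hne.symm
        (r ^ ((L : ℤ) - (y u.castSucc + 1 + 2 * (u : ℕ)))) ?_
      funext s
      rw [Pi.smul_apply, r1, r2, col, col, if_pos (by ring), if_pos (by omega), if_neg (by omega),
        if_pos (by omega), e1, smul_eq_mul]
      push_cast
      rfl
    · refine det_row_smul _ hne
        (r ^ ((L : ℤ) + (y u.castSucc + 1 + 2 * (u : ℕ)))) ?_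
      funext s
      rw [Pi.smul_apply, r1, r2, col, col, if_neg (by omega), if_neg (by omega), if_pos (by ring),
        if_neg (by omega), e1, smul_eq_mul]
      push_cast
      rw [add_assoc ((u : ℕ) : ℤ), one_add_one_eq_two]

open Classical in
theorem det_succ (m : ℕ) {k : ℕ} (x0 : St k) (σ : ℤ) (hσ : ∀ t, (x0 t - σ) % 2 = 0) (L : ℕ)
    (y z : St k) (hy : Valid m y) (hz : ∀ t, z t ≤ m + 2)
    (hpar : ∀ t, ((L : ℤ) + 1 + y t - σ) % 2 = 0) :
    (Mat r m x0 (L + 1) y z).det = ∑ A ∈ univ.filter fun A => Valid m (prev y A),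
      (r ^ 2) ^ ((L + 1) * val m (prev y A) y z) * (Mat r m x0 L (prev y A) y).det := by
  set w : Fin k → ℂ := fun t => if z t = y t + 1 ∧ y t ≤ m then (r ^ 2) ^ (L + 1) else 1 with hw
  set u : Fin k → Fin k → ℂ := fun t s => col r m k L t (y t - 1) (y t) (x0 s + 2 * (s : ℕ))
    with hu
  set v : Fin k → Fin k → ℂ := fun t s => w t * col r m k L t (y t + 1) (y t) (x0 s + 2 * (s : ℕ))
    with hv
  have h1 : (Mat r m x0 (L + 1) y z).det = Matrix.detRowAlternating (u + v) := by
    show Matrix.detRowAlternating _ = _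
    congr 1
    funext t s
    have := hσ s
    have := hpar t
    exact col_succ hr h0 m k L t _ _ _ (hy.2 t).2 (hz t) (by omega)
  have h2 := (Matrix.detRowAlternating (n := Fin k) (R := ℂ)).toMultilinearMap.map_add_univ u v
  have h3 : ∀ A : Finset (Fin k), Matrix.detRowAlternating (A.piecewise u v) =
      (r ^ 2) ^ ((L + 1) * val m (prev y A) y z) * (Mat r m x0 L (prev y A) y).det := by
    intro A
    have e1 : A.piecewise u v = Matrix.of fun t s =>
        (if t ∈ A then 1 else w t) * Mat r m x0 L (prev y A) y t s := by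
      funext t s
      by_cases ht : t ∈ A <;> simp [Mat, prev, ht, hu, hv]
    have e2 : ∏ t, (if t ∈ A then 1 else w t) = (r ^ 2) ^ ((L + 1) * val m (prev y A) y z) := by
      rw [pow_mul, val, ← prod_const, prod_filter]
      refine prod_congr rfl fun t _ => ?_
      by_cases ht : t ∈ A
      · have : prev y A t = y t - 1 := by simp [prev, ht]
        rw [if_pos ht, if_neg (by omega)]
      · simp [ht, prev, hw]
    rw [e1, ← e2, ← Matrix.det_mul_column]
    rfl
  rw [h1]
  refine h2.trans ?_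
  rw [sum_filter]
  refine sum_congr rfl fun A _ => (h3 A).trans ?_
  split_ifs with hA
  · rfl
  · rw [det_invalid m x0 σ hσ L y hy hpar A hA, mul_zero]

omit hr in
theorem det_init (m : ℕ) {k : ℕ} (x0 : St k) (σ : ℤ) (hσ : ∀ t, (x0 t - σ) % 2 = 0)
    (hx : Valid m x0) (y z : St k) (hy : Valid m y)
    (hpar : ∀ t, (y t - σ) % 2 = 0) :
    (Mat r m x0 0 y z).det =
      if y = x0 then ∏ t : Fin k, r ^ (-((((t : ℕ) : ℤ) + 1) * (x0 t + 2 * (t : ℕ)))) else 0 := by
  have hent : ∀ t s, Mat r m x0 0 y z t s = if x0 s + 2 * (s : ℕ) = y t + 2 * (t : ℕ) then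
      r ^ (-((((t : ℕ) : ℤ) + 1) * (y t + 2 * (t : ℕ)))) else 0 := by
    intro t s
    have h1 := hx.2 s
    have h2 := hy.2 t
    have h3 := hσ s
    have h4 := hpar t
    have h5 := s.2
    have h6 := t.2
    have hG := fun ρ => G_init r (k + 1) (m + 2 * k + 1) (a := x0 s + 2 * (s : ℕ))
      (b := y t + 2 * (t : ℕ)) ρ (by omega) (by omega) (by omega) (by omega) (by omega)
    simp only [Mat, Matrix.of_apply, col, hG, if_pos h2.2]
    split_ifs with c1 c2 c3 c3 c3
    · rw [← zpow_add₀ h0, c3]; congr 1; push_cast; ring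
    · simp
    · rw [c3]
    · rfl
    · rw [c3]
    · rfl
  have sm : ∀ {x : St k}, Monotone x → StrictMono fun t : Fin k => x t + 2 * (t : ℕ) := by
    intro x hx a b hab
    have := hx hab.le
    have : (a : ℕ) < b := hab
    dsimp only
    omega
  split_ifs with hy0
  · subst hy0
    rw [← Matrix.det_diagonal]
    congr 1
    ext t s
    rw [hent, Matrix.diagonal_apply]
    by_cases hts : t = s
    · subst hts; simp
    · rw [if_neg hts, if_neg]
      intro h
      exact hts ((sm hx.1).injective h).symm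
  · by_contra hdet
    have hrow : ∀ t, ∃ s, x0 s + 2 * (s : ℕ) = y t + 2 * (t : ℕ) := by
      intro t
      by_contra hc
      push Not at hc
      exact hdet (Matrix.det_eq_zero_of_row_eq_zero t fun s => by rw [hent, if_neg (hc s)])
    choose f hf using hrow
    have hfm : StrictMono f := by
      intro a b hab
      have := sm hy.1 hab
      dsimp only at this
      rw [← hf, ← hf] at this
      exact (sm hx.1).lt_iff_lt.1 this
    have hid : ∀ t, f t = t := fun t => le_antisymm (hfm.apply_le) (hfm.le_apply)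
    refine hy0 (funext fun t => ?_)
    have := hf t
    rw [hid] at this
    omega

theorem sum_Hist_det (m : ℕ) {k : ℕ} (x0 : St k) (σ : ℤ) (hσ : ∀ t, (x0 t - σ) % 2 = 0)
    (hx : Valid m x0) (L : ℕ) : ∀ τ : ℕ → St k, Valid m (τ L) → (∀ t, τ (L + 1) t ≤ m + 2) →
      Step (τ L) (τ (L + 1)) → (∀ t, ((L : ℤ) + τ L t - σ) % 2 = 0) →
      (∏ t : Fin k, r ^ (-((((t : ℕ) : ℤ) + 1) * (x0 t + 2 * (t : ℕ))))) *
        ∑ h ∈ Hist m x0 L τ, (r ^ 2) ^ wt m L h = (Mat r m x0 L (τ L) (τ (L + 1))).det := by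
  induction L with
  | zero =>
    intro τ h1 h2 h3 h4
    rw [det_init h0 m x0 σ hσ hx _ _ h1 (by simpa using h4), Hist]
    split_ifs <;> simp [wt]
  | succ L ih =>
    intro τ h1 h2 h3 h4
    rw [sum_Hist_succ, det_succ hr h0 m x0 σ hσ L _ _ h1 h2 (by simpa using h4), mul_sum]
    refine sum_congr rfl fun A hA => ?_
    have hA' : Valid m (prev (τ (L + 1)) A) := by simpa using hA
    have := ih (Function.update τ L (prev (τ (L + 1)) A)) (by simpa using hA')
      (by simpa using fun t => (h1.2 t).2)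
      (by
        rw [Function.update_self, Function.update_of_ne (by omega)]
        intro t; unfold prev; split_ifs <;> omega)
      (by
        rw [Function.update_self]
        intro t
        have := h4 t
        push_cast at this
        unfold prev; split_ifs <;> omega)
    rw [Function.update_self, Function.update_of_ne (by omega)] at this
    rw [← this]
    ring

end

/-- the ground state -/
def gr (m k : ℕ) (σ : ℤ) (i : ℕ) : St k :=
  fun _ => if ((i : ℤ) + (m + 1) - σ) % 2 = 0 then m + 1 else m + 2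

theorem gr_valid (m k : ℕ) (σ : ℤ) (i : ℕ) : Valid m (gr m k σ i) :=
  ⟨monotone_const, fun t => by unfold gr; split_ifs <;> omega⟩

theorem gr_step (m k : ℕ) (σ : ℤ) (i : ℕ) : Step (gr m k σ i) (gr m k σ (i + 1)) := by
  intro t; unfold gr; push_cast; split_ifs <;> omega

/-- the limiting determinant -/
noncomputable def ThMat (r : ℂ) (M : ℤ) {k : ℕ} (a : Fin k → ℤ) : Matrix (Fin k) (Fin k) ℂ :=
  Matrix.of fun t s => Th r (k + 1) M (a s) ((t : ℕ) + 1) - Th r (k + 1) M (-a s) ((t : ℕ) + 1)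

theorem tendsto_Hist {r : ℂ} (hr : ‖r‖ < 1) (h0 : r ≠ 0) (m : ℕ) {k : ℕ} (x0 : St k) (σ : ℤ)
    (hσ : ∀ t, (x0 t - σ) % 2 = 0) (hx : Valid m x0) :
    Tendsto (fun L => ∑ h ∈ Hist m x0 L (gr m k σ), (r ^ 2) ^ wt m L h) atTop
      (𝓝 ((∏ t : Fin k, r ^ ((((t : ℕ) : ℤ) + 1) * (x0 t + 2 * (t : ℕ)))) *
        ((poch (r ^ 2) (r ^ 2))⁻¹ ^ k *
          (ThMat r (m + 2 * k + 1) fun s => x0 s + 2 * (s : ℕ)).det))) := by
  have hp : (0 : ℤ) < k + 1 := by positivity
  have hM : (0 : ℤ) < m + 2 * k + 1 := by positivity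
  have h1 : ∀ L, ∑ h ∈ Hist m x0 L (gr m k σ), (r ^ 2) ^ wt m L h =
      (∏ t : Fin k, r ^ ((((t : ℕ) : ℤ) + 1) * (x0 t + 2 * (t : ℕ)))) *
        (Mat r m x0 L (gr m k σ L) (gr m k σ (L + 1))).det := by
    intro L
    rw [← sum_Hist_det hr h0 m x0 σ hσ hx L _ (gr_valid _ _ _ _)
      (fun t => ((gr_valid _ _ _ _).2 t).2) (gr_step _ _ _ _)
      (fun t => by unfold gr; split_ifs <;> omega), ← mul_assoc, ← prod_mul_distrib,
      prod_eq_one, one_mul]
    intro t _
    rw [← zpow_add₀ h0, add_neg_cancel, zpow_zero]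
  simp only [h1]
  refine Tendsto.const_mul _ ?_
  have h2 : (poch (r ^ 2) (r ^ 2))⁻¹ ^ k * (ThMat r (m + 2 * k + 1) fun s => x0 s + 2 * (s : ℕ)).det
      = ((poch (r ^ 2) (r ^ 2))⁻¹ • ThMat r (m + 2 * k + 1) fun s => x0 s + 2 * (s : ℕ)).det := by
    rw [Matrix.det_smul, Fintype.card_fin]
  rw [h2]
  refine (continuous_id.matrix_det.tendsto _).comp (tendsto_pi_nhds.2 fun t =>
    tendsto_pi_nhds.2 fun s => ?_)
  have h3 := tendsto_G hr h0 hp hM (x0 s + 2 * (s : ℕ)) ((t : ℕ) + 1)
    (fun L => gr m k σ L t + 2 * (t : ℕ)) (m + 2 + 2 * (t : ℕ)) (fun L => by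
      have := (gr_valid m k σ L).2 t
      rw [abs_le]; constructor <;> omega)
  simp only [ThMat, Matrix.smul_apply, Matrix.of_apply, smul_eq_mul]
  rw [mul_comm (poch _ _)⁻¹]
  refine h3.congr fun L => ?_
  have h4 := (gr_valid m k σ L).2 t
  have h5 : ¬ gr m k σ L t ≤ m := by unfold gr; split_ifs <;> omega
  simp only [col, if_neg h5, if_pos h4.2, ite_self]

end Pool.Agent.H340Z.CM
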