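import Pool.Agent.H340Z.CM.QB

set_option autoImplicit false

namespace Pool.Agent.H340Z.CM

open Filter Topology Finset

def ex (p M a ρ l : ℤ) : ℤ := 2 * p * M * l ^ 2 + 2 * p * a * l - ρ * (a + 2 * M * l)

noncomputable def S (r : ℂ) (p M : ℤ) (L : ℕ) (a b ρ : ℤ) : ℂ :=
  ∑' l : ℤ, r ^ ex p M a ρ l * bin (r ^ 2) L ((L + b - a) / 2 - M * l)

noncomputable def G (r : ℂ) (p M : ℤ) (L : ℕ) (a b ρ : ℤ) : ℂ :=
  S r p M L a b ρ - S r p M L (-a) b ρ

noncomputable def Th (r : ℂ) (p M : ℤ) (a ρ : ℤ) : ℂ := ∑' l : ℤ, r ^ ex p M a ρ l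

theorem norm_zpow_lt {r : ℂ} (hr : ‖r‖ < 1) (h0 : r ≠ 0) {n : ℤ} (hn : 0 < n) : ‖r ^ n‖ < 1 := by
  rw [norm_zpow]
  exact zpow_lt_one₀ (norm_pos_iff.2 h0) hr hn

theorem norm_sq_lt {r : ℂ} (hr : ‖r‖ < 1) : ‖r ^ 2‖ < 1 := by
  rw [norm_pow]
  exact pow_lt_one₀ (norm_nonneg _) hr (by norm_num)

section
variable {r : ℂ} (hr : ‖r‖ < 1) (h0 : r ≠ 0) {p M : ℤ} (hp : 0 < p) (hM : 0 < M)
include hr h0 hp hM

theorem summ_ex (a ρ : ℤ) : Summable fun l : ℤ => ‖r ^ ex p M a ρ l‖ := by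
  refine summable_qp (Q := r ^ (4 * p * M)) (κ := r ^ (2 * p * M + 2 * p * a - 2 * ρ * M))
    (norm_zpow_lt hr h0 (by positivity)) (zpow_ne_zero _ h0) (zpow_ne_zero _ h0) 1 fun n => ?_
  rw [← zpow_mul, ← zpow_add₀ h0, ← zpow_add₀ h0]
  congr 1
  simp only [ex]; push_cast; ring

theorem summ_S (a ρ : ℤ) (L : ℕ) (U : ℤ → ℤ) :
    Summable fun l : ℤ => r ^ ex p M a ρ l * bin (r ^ 2) L (U l) := by
  obtain ⟨C, hC, h⟩ := bin_bdd (norm_sq_lt hr)
  refine Summable.of_norm_bounded ((summ_ex hr h0 hp hM a ρ).mul_right C) fun l => ?_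
  rw [norm_mul]
  gcongr
  exact h _ _

theorem S_P1 (L : ℕ) (a b ρ : ℤ) (hpar : ((L : ℤ) + 1 + b - a) % 2 = 0) :
    S r p M (L + 1) a b ρ =
      r ^ ((L : ℤ) + 1 - b) * S r p M L a (b - 1) (ρ - 1) + S r p M L a (b + 1) ρ := by
  simp only [S]
  rw [← tsum_mul_left, ← Summable.tsum_add ((summ_S hr h0 hp hM _ _ _ _).mul_left _)
    (summ_S hr h0 hp hM _ _ _ _)]
  refine tsum_congr fun l => ?_
  rw [pascal1 (norm_sq_lt hr) (pow_ne_zero _ h0)]
  have e1 : (((L + 1 : ℕ) : ℤ) + b - a) / 2 - M * l - 1 = (L + (b - 1) - a) / 2 - M * l := by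
    push_cast; omega
  have e2 : (((L + 1 : ℕ) : ℤ) + b - a) / 2 - M * l = (L + (b + 1) - a) / 2 - M * l := by
    push_cast; omega
  rw [e1, e2, mul_add, ← mul_assoc, ← mul_assoc, ← zpow_natCast r 2, ← zpow_mul, ← zpow_add₀ h0,
    ← zpow_add₀ h0]
  congr 3
  have e3 : 2 * (((L : ℤ) + (b + 1) - a) / 2) = L + (b + 1) - a := by omega
  simp only [ex]
  push_cast
  linear_combination -e3

theorem S_P2 (L : ℕ) (a b ρ : ℤ) (hpar : ((L : ℤ) + 1 + b - a) % 2 = 0) :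
    S r p M (L + 1) a b ρ =
      S r p M L a (b - 1) ρ + r ^ ((L : ℤ) + 1 + b) * S r p M L a (b + 1) (ρ + 1) := by
  simp only [S]
  rw [← tsum_mul_left, ← Summable.tsum_add (summ_S hr h0 hp hM _ _ _ _)
    ((summ_S hr h0 hp hM _ _ _ _).mul_left _)]
  refine tsum_congr fun l => ?_
  rw [pascal2 (norm_sq_lt hr) (pow_ne_zero _ h0)]
  have e1 : (((L + 1 : ℕ) : ℤ) + b - a) / 2 - M * l - 1 = (L + (b - 1) - a) / 2 - M * l := by
    push_cast; omega
  have e2 : (((L + 1 : ℕ) : ℤ) + b - a) / 2 - M * l = (L + (b + 1) - a) / 2 - M * l := by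
    push_cast; omega
  rw [e1, e2, mul_add, ← mul_assoc, ← mul_assoc, ← zpow_natCast r 2, ← zpow_mul, ← zpow_add₀ h0,
    ← zpow_add₀ h0]
  congr 3
  have e3 : 2 * (((L : ℤ) + (b + 1) - a) / 2) = L + (b + 1) - a := by omega
  simp only [ex]
  push_cast
  linear_combination e3

theorem G_P1 (L : ℕ) (a b ρ : ℤ) (hpar : ((L : ℤ) + 1 + b - a) % 2 = 0) :
    G r p M (L + 1) a b ρ =
      r ^ ((L : ℤ) + 1 - b) * G r p M L a (b - 1) (ρ - 1) + G r p M L a (b + 1) ρ := by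
  simp only [G]
  rw [S_P1 hr h0 hp hM L a b ρ hpar, S_P1 hr h0 hp hM L (-a) b ρ (by omega)]
  ring

theorem G_P2 (L : ℕ) (a b ρ : ℤ) (hpar : ((L : ℤ) + 1 + b - a) % 2 = 0) :
    G r p M (L + 1) a b ρ =
      G r p M L a (b - 1) ρ + r ^ ((L : ℤ) + 1 + b) * G r p M L a (b + 1) (ρ + 1) := by
  simp only [G]
  rw [S_P2 hr h0 hp hM L a b ρ hpar, S_P2 hr h0 hp hM L (-a) b ρ (by omega)]
  ring

theorem tendsto_S (a ρ : ℤ) (b : ℕ → ℤ) (B : ℤ) (hb : ∀ L, |b L| ≤ B) :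
    Tendsto (fun L => S r p M L a (b L) ρ) atTop
      (𝓝 (Th r p M a ρ * (poch (r ^ 2) (r ^ 2))⁻¹)) := by
  obtain ⟨C, hC, h⟩ := bin_bdd (norm_sq_lt hr)
  rw [Th, ← tsum_mul_right]
  refine tendsto_tsum_of_dominated_convergence ((summ_ex hr h0 hp hM a ρ).mul_right C)
    (fun l => ?_) (Eventually.of_forall fun L l => ?_)
  · refine (tendsto_bin (norm_sq_lt hr) tendsto_id ?_ ?_).const_mul _
    · refine tendsto_atTop.2 fun c => ?_
      filter_upwards [eventually_ge_atTop (2 * c + 2 * (M * l) + B + a + 2).toNat] with n hn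
      have := abs_le.1 (hb n)
      omega
    · refine tendsto_atTop.2 fun c => ?_
      filter_upwards [eventually_ge_atTop (2 * c - 2 * (M * l) + B - a + 2).toNat] with n hn
      have := abs_le.1 (hb n)
      simp only [id]
      omega
  · rw [norm_mul]
    gcongr
    exact h _ _

theorem tendsto_G (a ρ : ℤ) (b : ℕ → ℤ) (B : ℤ) (hb : ∀ L, |b L| ≤ B) :
    Tendsto (fun L => G r p M L a (b L) ρ) atTop
      (𝓝 ((Th r p M a ρ - Th r p M (-a) ρ) * (poch (r ^ 2) (r ^ 2))⁻¹)) := by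
  rw [sub_mul]
  exact (tendsto_S hr h0 hp hM a ρ b B hb).sub (tendsto_S hr h0 hp hM (-a) ρ b B hb)

end

theorem G_wall0 (r : ℂ) (p M : ℤ) (L : ℕ) (a : ℤ) (hpar : ((L : ℤ) - a) % 2 = 0) :
    G r p M L a 0 0 = 0 := by
  rw [G, sub_eq_zero, S, S, ← (Equiv.neg ℤ).tsum_eq]
  refine tsum_congr fun l => ?_
  rw [← bin_symm]
  congr 2
  · simp only [ex, Equiv.neg_apply]; ring
  · simp only [Equiv.neg_apply, mul_neg]; omega

theorem G_wallM (r : ℂ) (p M : ℤ) (L : ℕ) (a : ℤ) (hpar : ((L : ℤ) + M - a) % 2 = 0) :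
    G r p M L a M p = 0 := by
  rw [G, sub_eq_zero, S, S, ← (Equiv.subLeft (1 : ℤ)).tsum_eq]
  refine tsum_congr fun l => ?_
  rw [← bin_symm]
  congr 2
  · simp only [ex, Equiv.subLeft_apply]; ring
  · simp only [Equiv.subLeft_apply, mul_sub, mul_one]; omega

theorem G_init (r : ℂ) (p M : ℤ) {a b : ℤ} (ρ : ℤ) (ha : 0 < a) (ha' : a < M) (hb : 0 < b)
    (hb' : b < M) (hpar : (b - a) % 2 = 0) :
    G r p M 0 a b ρ = if a = b then r ^ (-(ρ * a)) else 0 := by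
  have key : ∀ l u : ℤ, -M < u → u < M → u - M * l = 0 → l = 0 := by
    intro l u h1 h2 h3
    by_contra hl
    rcases lt_or_gt_of_ne hl with h | h
    · nlinarith
    · nlinarith
  have h2 : S r p M 0 (-a) b ρ = 0 := by
    rw [S]
    refine (tsum_congr fun l => ?_).trans tsum_zero
    rw [bin_zero, if_neg, mul_zero]
    intro h
    have := key l _ (by push_cast; omega) (by push_cast; omega) h
    subst this
    push_cast at h
    omega
  rw [G, h2, sub_zero, S, tsum_eq_single 0]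
  · rw [bin_zero]
    by_cases h : a = b
    · subst h; simp [ex]
    · rw [if_neg h, if_neg, mul_zero]
      push_cast; omega
  · intro l hl
    rw [bin_zero, if_neg, mul_zero]
    intro h
    exact hl (key l _ (by push_cast; omega) (by push_cast; omega) h)

end Pool.Agent.H340Z.CM
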