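import Pool.Agent.H340Z.CM.FinD

set_option autoImplicit false
set_option maxHeartbeats 400000

namespace Pool.Agent.H340Z.CM

open Filter Topology Finset

theorem ofReal_η {q : ℝ} (h0 : 0 < q) (h1 : q < 1) {M : ℕ} (hM : 0 < M) (a : ℕ) :
    ((∏' j : ℕ, (1 - q ^ (a + M * j)) : ℝ) : ℂ) = η q M a := by
  have hm : Multipliable fun j : ℕ => 1 - q ^ (a + M * j) := by
    have : Summable fun j : ℕ => ‖-(q ^ (a + M * j))‖ := by
      simp only [norm_neg, pow_add, pow_mul, norm_mul, norm_pow, Real.norm_of_nonneg h0.le]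
      exact (summable_geometric_of_lt_one (by positivity) (pow_lt_one₀ h0.le h1 hM.ne')).mul_left _
    simpa [sub_eq_add_neg] using multipliable_one_add_of_summable this
  have := (hm.hasProd.map Complex.ofRealHom Complex.continuous_ofReal).tprod_eq
  rw [← η_eq]
  simpa using this.symm

theorem η_split {q : ℂ} (hq : ‖q‖ < 1) {M : ℕ} (hM : 0 < M) (a : ℕ) :
    η q M a = η q (2 * M) a * η q (2 * M) (a + M) := by
  rw [η, poch_split _ (norm_pow_lt hq hM) 2 two_pos, prod_range_succ, prod_range_one]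
  simp only [η, pow_zero, mul_one, pow_one, pow_add, ← pow_mul, mul_comm M 2]

theorem even_part {q : ℂ} (hq : ‖q‖ < 1) (N : ℕ) :
    poch (q ^ 2) (q ^ 2) = (∏ j ∈ range N, η q (2 * N + 2) (2 * j + 2)) *
      poch (q ^ (2 * N + 2)) (q ^ (2 * N + 2)) := by
  rw [poch_split (q ^ 2) (norm_pow_lt hq (by omega)) (N + 1) (by omega), prod_range_succ]
  simp only [η, ← pow_mul, ← pow_add, add_comm 2, mul_add, mul_one]

theorem prodC {q : ℂ} (hq : ‖q‖ < 1) (n : ℕ) (k : ℕ → ℕ) :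
    (E q (2 * (n + KK k n) + 2) (2 * (n + KK k n) + 2 - 1))⁻¹ ^ KK k n *
      PP q (2 * (n + KK k n) + 2) 2 (univ.image (uu k n)) =
    η q (2 * (n + KK k n) + 2) (n + KK k n + 1) *
      η q (2 * (n + KK k n) + 2) (2 * (n + KK k n) + 2) ^ n / (η q 2 1 * η q 1 1 ^ n) *
      (∏ i ∈ Icc 1 n, T q (n + KK k n + 1) (bb k (i - 1) + 1)) *
      ∏ i ∈ Icc 1 n, ∏ j ∈ Ioc i n,
        gg q (2 * (n + KK k n) + 2) 2 (bb k (i - 1)) (bb k (j - 1)) := by
  have h1 := level_rank_C q (n + KK k n) (uu_sub k n)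
  have h0 : ∏ b ∈ (range n).image (bb k), T q (2 * (n + KK k n) + 2) (b + 1) *
      T q (2 * (n + KK k n) + 2) (b + 1 + (n + KK k n) + 1) =
      ∏ i ∈ Icc 1 n, T q (n + KK k n + 1) (bb k (i - 1) + 1) := by
    rw [prod_image fun a _ b _ h => (bb_mono k).injective h,
      show Icc 1 n = Ico 1 (n + 1) from rfl, prod_Ico_eq_prod_range, Nat.add_sub_cancel]
    refine prod_congr rfl fun j hj => ?_
    have hj' := mem_range.1 hj
    have := KK_mono k hj'.le
    have hb : bb k j + 1 ≤ n + KK k n := by unfold bb; omega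
    rw [Nat.add_sub_cancel_left, T, T, T, η_split hq (M := n + KK k n + 1) (by omega),
      η_split hq (M := n + KK k n + 1) (by omega), show 2 * (n + KK k n + 1) =
      2 * (n + KK k n) + 2 by ring,
      show 2 * (n + KK k n) + 2 - (bb k j + 1) = n + KK k n + 1 - (bb k j + 1) + (n + KK k n + 1) by
        omega,
      show 2 * (n + KK k n) + 2 - (bb k j + 1 + (n + KK k n) + 1) = n + KK k n + 1 - (bb k j + 1) by
        omega, add_assoc (bb k j + 1)]
    ring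
  rw [compl_uu, card_image_of_injective _ (bb_mono k).injective, card_range, W_bb, h0] at h1
  have h6 := PP_C q (n + KK k n)
  have h7 := even_part hq (n + KK k n)
  have hM : 0 < 2 * (n + KK k n) + 2 := by omega
  have h2 := poch_eq_E hq hM
  have h3 := poch_two hq
  have a1 := E_ne hq hM (2 * (n + KK k n) + 2 - 1)
  have a2 := poch_ne' (norm_pow_lt hq hM) (norm_pow_lt hq hM)
  have a3 := poch_ne' (norm_pow_lt hq two_pos) (norm_pow_lt hq two_pos)
  have e1 : η q 2 1 = poch q (q ^ 2) := by rw [η, pow_one]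
  have e2 : η q 1 1 = poch q q := by rw [η, pow_one]
  have e3 : η q (2 * (n + KK k n) + 2) (2 * (n + KK k n) + 2) =
    poch (q ^ (2 * (n + KK k n) + 2)) (q ^ (2 * (n + KK k n) + 2)) := rfl
  rw [e1, e2, e3]
  generalize E q (2 * (n + KK k n) + 2) (2 * (n + KK k n) + 2 - 1) = H at *
  generalize poch (q ^ (2 * (n + KK k n) + 2)) (q ^ (2 * (n + KK k n) + 2)) = A at *
  generalize poch (q ^ 2) (q ^ 2) = B at *
  generalize PP q (2 * (n + KK k n) + 2) 2 (univ.image (uu k n)) = X at *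
  generalize PP q (2 * (n + KK k n) + 2) 2 (range (n + KK k n)) = Z at *
  generalize (∏ i ∈ Icc 1 n, ∏ j ∈ Ioc i n,
        gg q (2 * (n + KK k n) + 2) 2 (bb k (i - 1)) (bb k (j - 1))) = Y at *
  generalize (∏ i ∈ Icc 1 n, T q (n + KK k n + 1) (bb k (i - 1) + 1)) = Y' at *
  generalize (∏ j ∈ range (n + KK k n), η q (2 * (n + KK k n) + 2) (2 * j + 2)) = V at *
  generalize η q (2 * (n + KK k n) + 2) (n + KK k n + 1) = D at *
  have a4 : V ≠ 0 := by rintro rfl; simp [h7] at a3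
  have h4 : poch q (q ^ 2) = H / V := by
    rw [h2, h7] at h3
    field_simp
    exact (mul_right_cancel₀ a2 (by linear_combination h3)).symm
  have h5 : X = Z * Y * Y' / (H * H) ^ n := by
    rw [← h1]; field_simp
  have h8 : Z = H ^ (n + KK k n) * V * D / H := by
    rw [← h6]; field_simp
  rw [h5, h4, h8, h2, inv_pow]
  field_simp
  ring

def FzC (k : ℕ → ℕ) (f : ℕ → ℕ → ℕ) (i : ℤ) (c : ℕ) : ℕ :=
  if i = -1 then (if Odd c then k ((c - 1) / 2) else 0) else f c i.toNat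

theorem SzC (k : ℕ → ℕ) {f : ℕ → ℕ → ℕ} (hf : ∀ c, f c 0 = 0) (j : ℕ) :
    Sz 2 (FzC k f) (2 * j + 1) = KK k j ∧ Sz 2 (FzC k f) (2 * j + 2) = KK k j := by
  have e : ∀ c, Sz 2 (FzC k f) (c + 1) = Sz 2 (FzC k f) c + FzC k f (zz 2 (c + 1)) (c + 1) :=
    fun c => sum_Icc_succ_top (by omega) _
  have e2 : ∀ j, Sz 2 (FzC k f) (2 * j + 2) = Sz 2 (FzC k f) (2 * j + 1) := by
    intro j
    rw [e, zz, if_pos (by omega), FzC, if_neg (by omega), Int.toNat_zero, hf, add_zero]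
  rw [e2, and_self]
  induction j with
  | zero => simp [Sz, zz, FzC, KK]
  | succ j ih =>
    rw [e, show 2 * (j + 1) = 2 * j + 2 by ring, e2, ih, zz, if_neg (by omega), FzC, if_pos rfl,
      if_pos ⟨j + 1, by ring⟩, KK_succ, show (2 * j + 2 + 1 - 1) / 2 = j + 1 by omega]

theorem admC (n : ℕ) (k : ℕ → ℕ) {f : ℕ → ℕ → ℕ} (hf : ∀ c, f c 0 = 0) :
    AdmP (2 * n + 1) 2 (FzC k f) (KK k n) ↔ Adm (2 * n + 1) (xx k n 2) 2 fun i c => f c i := by
  have hx : Valid (2 * n + 1) (xx k n 2) := xx_valid k n (by omega) (by omega)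
  refine admP_iff (fun t => by unfold xx; omega) hx
    (fun i c => ?_) (SzC k hf n).1 (fun c h1 h2 => ?_) fun c h0 h1 h2 => ?_
  · rw [FzC, if_neg (by omega), show ((i : ℤ) + 1).toNat = i + 1 by omega]
  · rcases Nat.eq_zero_or_pos c with rfl | hc
    · rw [cnt_zero hx]; simp [Sz]
    · obtain ⟨j, rfl⟩ : ∃ j, c = 2 * j + 2 := ⟨c / 2 - 1, by omega⟩
      rw [(SzC k hf j).2, cnt_xx k n 2 (by omega)]
  · obtain ⟨j, rfl⟩ : ∃ j, c = 2 * j + 1 := ⟨c / 2, by omega⟩
    rw [(SzC k hf j).1, cnt_xx k n 2 (by omega)]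

theorem sum_swap_eq (m N : ℕ) (f : ℕ → ℕ → ℕ) :
    ∑ c ∈ Icc 1 m, ∑ i ∈ Icc 1 N, i * f c i = ∑ i ∈ range (N + 1), ∑ c ∈ Icc 1 m, i * f c i := by
  rw [sum_comm, range_eq_Ico, sum_eq_sum_Ico_succ_bot (by omega)]
  simp only [zero_mul, sum_const_zero, zero_add]
  rfl

theorem ncard_swap (A B : Set (ℕ → ℕ → ℕ)) (h : ∀ f, f ∈ A ↔ (fun i c => f c i) ∈ B) :
    A.ncard = B.ncard :=
  Set.ncard_congr (fun f _ => fun i c => f c i) (fun f hf => (h f).1 hf)
    (fun a b _ _ e => funext fun c => funext fun i => congrFun (congrFun e i) c)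
    fun g hg => ⟨fun c i => g i c, (h _).2 hg, rfl⟩

end Pool.Agent.H340Z.CM
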