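import Pool.Agent.H340Z.CM.Path

set_option autoImplicit false
set_option maxHeartbeats 400000

namespace Pool.Agent.H340Z.CM

open Filter Topology Finset

theorem η_eq (q : ℂ) (M a : ℕ) : ∏' r : ℕ, (1 - q ^ (a + M * r)) = η q M a := by
  simp only [η, poch, pow_add, pow_mul]

theorem mult_η {q : ℂ} (hq : ‖q‖ < 1) {M : ℕ} (hM : 0 < M) (a : ℕ) :
    Multipliable fun r : ℕ => 1 - q ^ (a + M * r) := by
  simpa only [pow_add, pow_mul] using mult_poch (q ^ a) (norm_pow_lt hq hM)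

theorem T_eq {q : ℂ} (hq : ‖q‖ < 1) {M : ℕ} (hM : 0 < M) (a : ℕ) :
    ∏' r : ℕ, ((1 - q ^ (a + M * r)) * (1 - q ^ (M - a + M * r))) = T q M a := by
  rw [(mult_η hq hM a).tprod_mul (mult_η hq hM _), η_eq, η_eq, T]

theorem T_symm (q : ℂ) {M a b : ℕ} (h : a + b = M) : T q M a = T q M b := by
  rw [T, T, show M - a = b by omega, show M - b = a by omega, mul_comm]

theorem poch_self (q : ℂ) (M : ℕ) : ∏' j : ℕ, (1 - q ^ (M * (j + 1))) = poch (q ^ M) (q ^ M) := by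
  simp only [poch, pow_mul, pow_succ']

theorem poch_one (q : ℂ) : ∏' j : ℕ, (1 - q ^ (j + 1)) = poch q q := by
  simp only [poch, pow_succ']

theorem poch_two {q : ℂ} (hq : ‖q‖ < 1) : poch q q = poch q (q ^ 2) * poch (q ^ 2) (q ^ 2) := by
  rw [poch_split q hq 2 (by omega), prod_range_succ, prod_range_one]
  simp [sq]

theorem odd_part {q : ℂ} (hq : ‖q‖ < 1) {N : ℕ} (hN : 0 < N) :
    poch q (q ^ 2) = ∏ j ∈ range N, η q (2 * N) (2 * j + 1) := by
  rw [poch_split q (norm_pow_lt hq (by omega)) N hN]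
  simp only [η, pow_succ' q (2 * _), pow_mul]

theorem prodD {q : ℂ} (hq : ‖q‖ < 1) {n : ℕ} (hn : 1 ≤ n) (k : ℕ → ℕ) :
    (E q (2 * (n + KK k n)) (2 * (n + KK k n) - 1))⁻¹ ^ KK k n *
      PP q (2 * (n + KK k n)) 1 (univ.image (uu k n)) =
    poch (q ^ (2 * (n + KK k n))) (q ^ (2 * (n + KK k n))) ^ n /
      (poch (q ^ 2) (q ^ 2) * poch q q ^ (n - 1)) *
      ∏ i ∈ Icc 1 n, ∏ j ∈ Ioc i n,
        gg q (2 * (n + KK k n)) 1 (bb k (i - 1)) (bb k (j - 1)) := by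
  have h1 := level_rank_D q (n + KK k n) (uu_sub k n)
  rw [compl_uu, card_image_of_injective _ (bb_mono k).injective, card_range, W_bb, PP_D,
    ← odd_part hq (by omega)] at h1
  have hM : 0 < 2 * (n + KK k n) := by omega
  have h2 := poch_eq_E hq hM
  have h3 := poch_two hq
  have a1 := E_ne hq hM (2 * (n + KK k n) - 1)
  have a2 := poch_ne' (norm_pow_lt hq hM) (norm_pow_lt hq hM)
  have a3 := poch_ne' (norm_pow_lt hq two_pos) (norm_pow_lt hq two_pos)
  generalize E q (2 * (n + KK k n)) (2 * (n + KK k n) - 1) = H at *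
  generalize poch (q ^ (2 * (n + KK k n))) (q ^ (2 * (n + KK k n))) = A at *
  generalize poch (q ^ 2) (q ^ 2) = B at *
  generalize PP q (2 * (n + KK k n)) 1 (univ.image (uu k n)) = X at *
  generalize (∏ i ∈ Icc 1 n, ∏ j ∈ Ioc i n,
        gg q (2 * (n + KK k n)) 1 (bb k (i - 1)) (bb k (j - 1))) = Y at *
  obtain ⟨n, rfl⟩ : ∃ n', n = n' + 1 := ⟨n - 1, by omega⟩
  have h4 : poch q (q ^ 2) = H * A / B := by rw [← h2, h3]; field_simp
  have h5 : X = H ^ (n + 1 + KK k (n + 1)) * poch q (q ^ 2) * Y / (H * H) ^ (n + 1) := by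
    rw [← h1]; field_simp
  rw [h5, h4, h2, Nat.add_sub_cancel, inv_pow]
  field_simp
  ring

def FzD (n : ℕ) (k : ℕ → ℕ) (g : ℕ → ℕ → ℕ) (i : ℤ) (c : ℕ) : ℕ :=
  if 1 ≤ i then g i.toNat c
  else if i = 0 then (if c = 1 then k 0 else 0) + (if c = 2*n-1 then k n else 0)
  else if Even c ∧ 2 ≤ c ∧ c ≤ 2*n-2 then k (c/2) else 0

theorem SzD {n : ℕ} (k : ℕ → ℕ) (g : ℕ → ℕ → ℕ) (j : ℕ) (hj : j < n) :
    Sz 1 (FzD n k g) (2 * j + 1) = KK k j + (if j + 1 = n then k n else 0) ∧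
      (1 ≤ j → Sz 1 (FzD n k g) (2 * j) = KK k j) := by
  have e : ∀ c, Sz 1 (FzD n k g) (c + 1) = Sz 1 (FzD n k g) c + FzD n k g (zz 1 (c + 1)) (c + 1) :=
    fun c => sum_Icc_succ_top (by omega) _
  induction j with
  | zero =>
    refine ⟨?_, fun h => by omega⟩
    simp only [Sz, mul_zero, zero_add, Icc_self, sum_singleton, zz, FzD, KK, range_one]
    simp only [Nat.cast_one, sub_self, EuclideanDomain.zero_mod, if_true]
    rw [if_neg (by omega)]
    congr 1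
    exact if_congr (by omega) rfl rfl
  | succ j ih =>
    have h1 := (ih (by omega)).1
    rw [if_neg (by omega), add_zero] at h1
    have h2 : Sz 1 (FzD n k g) (2 * (j + 1)) = KK k (j + 1) := by
      rw [show 2 * (j + 1) = 2 * j + 1 + 1 by ring, e, h1, KK_succ, zz, if_neg (by omega), FzD,
        if_neg (by omega), if_neg (by omega), if_pos ⟨⟨j + 1, by ring⟩, by omega, by omega⟩,
        show (2 * j + 1 + 1) / 2 = j + 1 by omega]
    refine ⟨?_, fun _ => h2⟩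
    rw [e, h2, zz, if_pos (by omega), FzD, if_neg (by omega), if_pos rfl, if_neg (by omega),
      zero_add]
    congr 1
    exact if_congr (by omega) rfl rfl

theorem admD {n : ℕ} (hn : 1 ≤ n) (k : ℕ → ℕ) (g : ℕ → ℕ → ℕ) :
    AdmP (2 * n - 1) 1 (FzD n k g) (KK k n) ↔ Adm (2 * n - 1) (xx k n 1) 1 g := by
  refine admP_iff (fun t => by unfold xx; omega) (xx_valid k n le_rfl (by omega))
    (fun i c => ?_) ?_ (fun c h1 h2 => ?_) fun c h0 h1 h2 => ?_
  · rw [FzD, if_pos (by omega), show ((i : ℤ) + 1).toNat = i + 1 by omega]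
  · obtain ⟨n, rfl⟩ : ∃ n', n = n' + 1 := ⟨n - 1, by omega⟩
    rw [show 2 * (n + 1) - 1 = 2 * n + 1 by omega, (SzD k g n (by omega)).1, if_pos rfl, KK_succ]
  · obtain ⟨j, rfl⟩ : ∃ j, c = 2 * j + 1 := ⟨c / 2, by omega⟩
    rw [(SzD k g j (by omega)).1, if_neg (by omega), add_zero, cnt_xx k n 1 (by omega)]
  · obtain ⟨j, rfl⟩ : ∃ j, c = 2 * j := ⟨c / 2, by omega⟩
    rw [(SzD k g j (by omega)).2 (by omega), cnt_xx k n 1 (by omega)]

end Pool.Agent.H340Z.CM
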