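import Pool.Agent.H340Z.CM.QB

set_option autoImplicit false

namespace Pool.Agent.H340Z.CM

open Filter Topology Finset

def tri (n : ℤ) : ℤ := n * (n - 1) / 2

theorem two_tri (n : ℤ) : 2 * tri n = n * (n - 1) := by
  have : 2 ∣ n * (n - 1) := (Int.even_mul_pred_self n).two_dvd
  unfold tri; omega

theorem tri_succ (n : ℤ) : tri (n + 1) = tri n + n := by
  have h1 := two_tri n
  have h2 := two_tri (n + 1)
  have : 2 * tri (n + 1) = 2 * (tri n + n) := by linear_combination h2 - h1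
  omega

noncomputable def tt (Q z : ℂ) (n : ℤ) : ℂ := (-1) ^ n * Q ^ tri n * z ^ n

noncomputable def th (Q z : ℂ) : ℂ := ∑' n : ℤ, tt Q z n

theorem equiv_sum {α β : Type} (e : α ≃ β) {f : β → ℂ} {g : α → ℂ} (hg : Summable g)
    (h : ∀ n, f (e n) = g n) : Summable f ∧ ∑' n, f n = ∑' n, g n := by
  have e1 : g = f ∘ e := funext fun n => (h n).symm
  subst e1
  exact ⟨e.summable_iff.1 hg, (e.tsum_eq f).symm⟩

theorem shift_sum {f g : ℤ → ℂ} (c : ℤ) (hg : Summable g) (h : ∀ n, f (n + c) = g n) :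
    Summable f ∧ ∑' n, f n = ∑' n, g n := equiv_sum (Equiv.addRight c) hg h

theorem equiv_tsum {α β : Type} (e : α ≃ β) {f : β → ℂ} {g : α → ℂ}
    (h : ∀ n, f (e n) = g n) : ∑' n, f n = ∑' n, g n := by
  have e1 : g = f ∘ e := funext fun n => (h n).symm
  subst e1
  exact (e.tsum_eq f).symm

section
variable {Q z : ℂ} (hQ : ‖Q‖ < 1) (h0 : Q ≠ 0) (hz : z ≠ 0)
include h0 hz

theorem tt_succ (n : ℤ) : tt Q z (n + 1) = -z * Q ^ n * tt Q z n := by
  simp only [tt, tri_succ, zpow_add₀ h0, zpow_add₀ hz, zpow_add₀ (show (-1 : ℂ) ≠ 0 by norm_num),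
    zpow_one]
  ring

include hQ

theorem summ_tt : Summable fun n => ‖tt Q z n‖ :=
  summable_qp hQ h0 (neg_ne_zero.2 hz) 1 fun n => by simpa using tt_succ h0 hz n

theorem summ_tt_bin (c : ℂ) (L : ℕ) (U : ℤ → ℤ) :
    Summable fun n => c * (tt Q z n * bin Q L (U n)) := by
  obtain ⟨C, hC, h⟩ := bin_bdd hQ
  refine Summable.mul_left c ?_
  refine Summable.of_norm_bounded ((summ_tt hQ h0 hz).mul_right C) fun l => ?_
  rw [norm_mul]
  gcongr
  exact h _ _

theorem summ_tt_bin' (L : ℕ) (U : ℤ → ℤ) :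
    Summable fun n => tt Q z n * bin Q L (U n) := by
  simpa using summ_tt_bin hQ h0 hz 1 L U

theorem jtp_step1 (L : ℕ) (N : ℤ) :
    ∑' n : ℤ, tt Q z n * bin Q (L + 1) (N + n) =
      (1 - z * Q ^ ((L : ℤ) - N)) * ∑' n : ℤ, tt Q z n * bin Q L (N + n) := by
  have h1 : ∀ n : ℤ, tt Q z n * bin Q (L + 1) (N + n) =
      tt Q z n * Q ^ ((L : ℤ) + 1 - (N + n)) * bin Q L (N + n - 1) + tt Q z n * bin Q L (N + n) := by
    intro n; rw [pascal1 hQ h0]; ring
  have h2 : ∀ n : ℤ, tt Q z (n + 1) * Q ^ ((L : ℤ) + 1 - (N + (n + 1))) * bin Q L (N + (n + 1) - 1)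
      = -(z * Q ^ ((L : ℤ) - N)) * (tt Q z n * bin Q L (N + n)) := by
    intro n
    rw [tt_succ h0 hz, show N + (n + 1) - 1 = N + n by ring,
      show (L : ℤ) - N = n + ((L : ℤ) + 1 - (N + (n + 1))) by ring, zpow_add₀ h0 n]
    ring
  obtain ⟨h3, h4⟩ := shift_sum (f := fun n : ℤ =>
      tt Q z n * Q ^ ((L : ℤ) + 1 - (N + n)) * bin Q L (N + n - 1)) 1
      (summ_tt_bin hQ h0 hz _ L _) h2
  rw [tsum_congr h1, h3.tsum_add (summ_tt_bin' hQ h0 hz _ _), h4, tsum_mul_left]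
  ring

theorem jtp_step2 (L : ℕ) (N : ℤ) :
    ∑' n : ℤ, tt Q z n * bin Q (L + 1) (N + 1 + n) =
      (1 - Q / z * Q ^ N) * ∑' n : ℤ, tt Q z n * bin Q L (N + n) := by
  have h1 : ∀ n : ℤ, tt Q z n * bin Q (L + 1) (N + 1 + n) =
      tt Q z n * Q ^ (N + 1 + n) * bin Q L (N + 1 + n) + tt Q z n * bin Q L (N + n) := by
    intro n; rw [pascal2 hQ h0, show N + 1 + n - 1 = N + n by ring]; ring
  have h2 : ∀ n : ℤ, tt Q z (n - 1) * Q ^ (N + 1 + (n - 1)) * bin Q L (N + 1 + (n - 1))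
      = -(Q / z * Q ^ N) * (tt Q z n * bin Q L (N + n)) := by
    intro n
    have := tt_succ h0 hz (n - 1)
    rw [sub_add_cancel] at this
    rw [this, show N + 1 + (n - 1) = N + n by ring, zpow_add₀ h0 N, zpow_sub₀ h0, zpow_one]
    field_simp
  obtain ⟨h3, h4⟩ := shift_sum (f := fun n : ℤ =>
      tt Q z n * Q ^ (N + 1 + n) * bin Q L (N + 1 + n)) (-1)
      (summ_tt_bin hQ h0 hz _ L _) (fun n => by rw [← sub_eq_add_neg]; exact h2 n)
  rw [tsum_congr h1, h3.tsum_add (summ_tt_bin' hQ h0 hz _ _), h4, tsum_mul_left]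
  ring

theorem jtp_fin (N : ℕ) :
    ∑' n : ℤ, tt Q z n * bin Q (N + N) (N + n) =
      (∏ j ∈ range N, (1 - z * Q ^ j)) * ∏ j ∈ range N, (1 - Q / z * Q ^ j) := by
  induction N with
  | zero =>
    rw [tsum_eq_single 0]
    · simp [tt, tri, bin_zero]
    · intro n hn
      simp [bin_zero, hn]
  | succ N ih =>
    rw [show N + 1 + (N + 1) = (N + N + 1) + 1 by ring, jtp_step1 hQ h0 hz]
    push_cast
    rw [jtp_step2 hQ h0 hz, ih, prod_range_succ, prod_range_succ,
      show (N : ℤ) + N + 1 - (N + 1) = N by ring, zpow_natCast]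
    ring

/-- Jacobi triple product -/
theorem jtp : th Q z = poch Q Q * (poch z Q * poch (Q / z) Q) := by
  obtain ⟨C, hC, h⟩ := bin_bdd hQ
  have h1 : Tendsto (fun N : ℕ => ∑' n : ℤ, tt Q z n * bin Q (N + N) (N + n)) atTop
      (𝓝 (∑' n : ℤ, tt Q z n * (poch Q Q)⁻¹)) := by
    refine tendsto_tsum_of_dominated_convergence ((summ_tt hQ h0 hz).mul_right C)
      (fun l => ?_) (Eventually.of_forall fun L l => ?_)
    · refine (tendsto_bin hQ (L := fun N => N + N) ?_ ?_ ?_).const_mul _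
      · refine tendsto_atTop.2 fun c => ?_
        filter_upwards [eventually_ge_atTop c] with n hn
        omega
      · refine tendsto_atTop.2 fun c => ?_
        filter_upwards [eventually_ge_atTop (c - l).toNat] with n hn
        omega
      · refine tendsto_atTop.2 fun c => ?_
        filter_upwards [eventually_ge_atTop (c + l).toNat] with n hn
        omega
    · rw [norm_mul]
      gcongr
      exact h _ _
  simp only [jtp_fin hQ h0 hz] at h1
  have h2 := tendsto_nhds_unique h1 ((tendsto_poch z hQ).mul (tendsto_poch (Q / z) hQ))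
  rw [tsum_mul_right] at h2
  rw [← h2, th]
  have := poch_ne' hQ hQ
  field_simp

end

end Pool.Agent.H340Z.CM
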