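import Pool.Agent.H340Z.CM.Prod
import Pool.Agent.H340Z.CM.Det

set_option autoImplicit false
set_option maxHeartbeats 400000

namespace Pool.Agent.H340Z.CM

open Filter Topology Finset

theorem ThMat_eq {r : ℂ} (h0 : r ≠ 0) (M : ℕ) {k : ℕ} (a : Fin k → ℕ) :
    ThMat r M (fun s => a s) = PhiMat ((r ^ 2) ^ M) fun s => r ^ a s := by
  ext t s
  simp only [ThMat, PhiMat, Matrix.of_apply, Th, phi]
  congr 1
  · refine tsum_congr fun l => ?_
    rw [← pow_mul, ← zpow_natCast, ← zpow_natCast, ← zpow_mul, ← zpow_mul, ← zpow_add₀ h0]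
    congr 1
    simp only [ex]; push_cast; ring
  · refine equiv_tsum (Equiv.neg ℤ) fun l => ?_
    rw [← pow_mul, ← zpow_natCast, ← zpow_natCast, ← zpow_mul, ← zpow_mul, ← zpow_add₀ h0]
    congr 1
    simp only [ex, Equiv.neg_apply]; push_cast; ring

def MacProp (Q : ℂ) (k : ℕ) (κ : ℂ) : Prop := ∀ y : Fin k → ℂ,
    (∀ s, y s ≠ 0) → (∏ t : Fin k, y t ^ ((t : ℕ) + 1)) * (PhiMat Q y).det * κ =
      ∏ j : Fin k, (θ (y j ^ 2) Q * ∏ i ∈ Iio j, θ (y i * y j) Q * θ (y j / y i) Q)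

theorem lim_aux {r : ℂ} (hr : ‖r‖ < 1) (h0 : r ≠ 0) (m k off : ℕ) (u : Fin k → ℕ)
    (hu : StrictMono u) (x0 : St k) (hx0 : ∀ t, x0 t + 2 * (t : ℕ) = 2 * u t + off)
    (hx : Valid m x0) {κ : ℂ} (hκ : MacProp ((r ^ 2) ^ (m + 2 * k + 1)) k κ) :
    ∃ V, Tendsto (fun L => ∑ h ∈ Hist m x0 L (gr m k off), (r ^ 2) ^ wt m L h) atTop (𝓝 V) ∧
      V * κ = (poch (r ^ 2) (r ^ 2))⁻¹ ^ k * PP (r ^ 2) (m + 2 * k + 1) off (univ.image u) := by
  refine ⟨_, tendsto_Hist hr h0 m x0 off (fun t => by have := hx0 t; omega) hx, ?_⟩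
  have hq0 : r ^ 2 ≠ 0 := pow_ne_zero _ h0
  have h1 := ThMat_eq h0 (m + 2 * k + 1) fun s => 2 * u s + off
  have h2 := hκ (fun s => r ^ (2 * u s + off)) fun s => pow_ne_zero _ h0
  have hb : ∀ t, 2 * u t + off ≤ m + 2 * k := by
    intro t
    have := hx0 t
    have := (hx.2 t).2
    have := t.2
    omega
  push_cast at h1
  simp only [hx0]
  rw [h1]
  have h3 : (∏ t : Fin k, r ^ ((((t : ℕ) : ℤ) + 1) * (2 * (u t : ℤ) + off))) =
      ∏ t : Fin k, (r ^ (2 * u t + off)) ^ ((t : ℕ) + 1) := by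
    refine prod_congr rfl fun t _ => ?_
    rw [← pow_mul, ← zpow_natCast]
    congr 1; push_cast; ring
  have h4 : (∏ j : Fin k, (θ ((r ^ (2 * u j + off)) ^ 2) ((r ^ 2) ^ (m + 2 * k + 1)) *
      ∏ i ∈ Iio j, θ (r ^ (2 * u i + off) * r ^ (2 * u j + off)) ((r ^ 2) ^ (m + 2 * k + 1)) *
        θ (r ^ (2 * u j + off) / r ^ (2 * u i + off)) ((r ^ 2) ^ (m + 2 * k + 1)))) =
      PP (r ^ 2) (m + 2 * k + 1) off (univ.image u) := by
    rw [PP, W_image _ hu, prod_image fun a _ b _ h => hu.injective h, ← prod_mul_distrib]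
    refine prod_congr rfl fun j _ => ?_
    have hj := hb j
    rw [← θ_eq_T hq0 (by omega), pow_right_comm r 2 (2 * u j + off)]
    congr 1
    refine prod_congr rfl fun i hi => ?_
    have hi' := hb i
    have hij : u i < u j := hu (mem_Iio.1 hi)
    rw [gg, ← θ_eq_T hq0 (by omega), ← θ_eq_T hq0 (by omega)]
    congr 2
    · rw [← pow_add, ← pow_mul]; congr 1; ring
    · rw [div_eq_iff (pow_ne_zero _ h0), ← pow_mul, ← pow_add]; congr 1; omega
  rw [h3, ← h4, ← h2]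
  ring

theorem Hist_zero (k L : ℕ) : Hist 0 (gr 0 k 1 0) L (gr 0 k 1) = {gr 0 k 1} := by
  ext h
  rw [mem_Hist, mem_singleton]
  constructor
  · rintro ⟨h1, h2, h3⟩
    funext i
    induction i with
    | zero => exact h1
    | succ i ih =>
      rcases lt_or_ge (i + 1) L with hi | hi
      · funext t
        have a1 := (h2 i (by omega)).2 t
        have a2 := (h2 (i + 1) hi).1.2 t
        rw [ih] at a1
        simp only [gr] at a1 ⊢
        push_cast at a1 a2 ⊢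
        split_ifs at a1 ⊢ <;> omega
      · exact h3 _ hi
  · rintro rfl
    exact ⟨rfl, fun i _ => ⟨gr_valid _ _ _ _, gr_step _ _ _ _⟩, fun _ _ => rfl⟩

theorem wt_zero (k L : ℕ) : wt 0 L (gr 0 k 1) = 0 := by
  refine sum_eq_zero fun i _ => ?_
  rw [val, filter_eq_empty_iff.2, card_empty, mul_zero]
  intro t _ h
  have := ((gr_valid 0 k 1 (i + 1)).2 t).1
  push_cast at h
  omega

theorem exists_root {Q : ℂ} (hQ : ‖Q‖ < 1) (h0 : Q ≠ 0) {n : ℕ} (hn : 0 < n) :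
    ∃ r : ℂ, ‖r‖ < 1 ∧ r ≠ 0 ∧ r ^ n = Q := by
  obtain ⟨r, hr⟩ := IsAlgClosed.exists_pow_nat_eq Q hn
  refine ⟨r, ?_, ?_, hr⟩
  · by_contra hc
    have := one_le_pow₀ (n := n) (not_lt.1 hc)
    rw [← norm_pow, hr] at this
    linarith
  · rintro rfl
    exact h0 (by rw [← hr, zero_pow hn.ne'])

theorem kappa_eq {Q : ℂ} (hQ : ‖Q‖ < 1) (h0 : Q ≠ 0) {k : ℕ} {κ : ℂ} (hκ : MacProp Q k κ) :
    κ = (poch Q Q)⁻¹ ^ k := by
  obtain ⟨r, hr, hr0, hrQ⟩ := exists_root hQ h0 (n := 2 * (0 + 2 * k + 1)) (by omega)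
  rw [pow_mul] at hrQ
  subst hrQ
  obtain ⟨V, h1, h2⟩ := lim_aux hr hr0 0 k 1 Fin.val Fin.val_strictMono (gr 0 k 1 0)
    (fun t => by simp [gr]; ring) (gr_valid _ _ _ _) hκ
  simp only [Nat.cast_one, Hist_zero, sum_singleton, wt_zero, pow_zero] at h1
  have hV : V = 1 := tendsto_nhds_unique h1 tendsto_const_nhds
  have himg : (univ : Finset (Fin k)).image Fin.val = range k := by
    ext a
    simp only [mem_image, mem_univ, true_and, mem_range]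
    exact ⟨fun ⟨b, hb⟩ => hb ▸ b.2, fun h => ⟨⟨a, h⟩, rfl⟩⟩
  have hq := norm_sq_lt hr
  rw [hV, one_mul, himg, zero_add, PP_odd, poch_eq_E hq (M := 2 * k + 1) (by omega),
    ← mul_pow] at h2
  rw [h2, zero_add]
  congr 1
  have := E_ne hq (M := 2 * k + 1) (by omega) (2 * k + 1 - 1)
  field_simp

/-- The generating function of the walker families. -/
theorem lim_walk {q : ℂ} (hq : ‖q‖ < 1) (h0 : q ≠ 0) (m k off : ℕ) (u : Fin k → ℕ)
    (hu : StrictMono u) (x0 : St k) (hx0 : ∀ t, x0 t + 2 * (t : ℕ) = 2 * u t + off)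
    (hx : Valid m x0) :
    Tendsto (fun L => ∑ h ∈ Hist m x0 L (gr m k off), q ^ wt m L h) atTop
      (𝓝 ((E q (m + 2 * k + 1) (m + 2 * k + 1 - 1))⁻¹ ^ k *
        PP q (m + 2 * k + 1) off (univ.image u))) := by
  obtain ⟨r, hr, hr0, rfl⟩ := exists_root hq h0 (n := 2) (by omega)
  have hQ := norm_pow_lt hq (n := m + 2 * k + 1) (by omega)
  have hQ0 : (r ^ 2) ^ (m + 2 * k + 1) ≠ 0 := pow_ne_zero _ h0
  obtain ⟨κ, hκ⟩ := mac hQ hQ0 k
  obtain ⟨V, h1, h2⟩ := lim_aux hr hr0 m k off u hu x0 hx0 hx hκ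
  rw [kappa_eq hQ hQ0 hκ, poch_eq_E hq (M := m + 2 * k + 1) (by omega), mul_inv, mul_pow,
    mul_right_comm] at h2
  rwa [← mul_right_cancel₀ (pow_ne_zero _ (inv_ne_zero (poch_ne' hQ hQ))) h2]

end Pool.Agent.H340Z.CM
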