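import Pool.Agent.H340Z.CM.JTP

set_option autoImplicit false
set_option maxHeartbeats 400000

namespace Pool.Agent.H340Z.CM

open Filter Topology Finset

noncomputable def ev (c : ℤ → ℂ) (x : ℂ) : ℂ := ∑' n : ℤ, c n * x ^ n

def QP (Q : ℂ) (p : ℕ) (s : ℂ) (c : ℤ → ℂ) : Prop :=
  (∀ n, c (n + 2 * p) = Q ^ (n + p) * c n) ∧ ∀ n, c (-n) = s * c n

noncomputable def conv (c d : ℤ → ℂ) (n : ℤ) : ℂ := ∑' i : ℤ, c i * d (n - i)

noncomputable def phi (Q : ℂ) (p t : ℤ) (x : ℂ) : ℂ :=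
  ∑' l : ℤ, Q ^ (p * l ^ 2 + t * l) * x ^ (2 * p * l + t)

theorem QP.conv {Q : ℂ} (h0 : Q ≠ 0) {p p' : ℕ} {s s' : ℂ} {c d : ℤ → ℂ} (hc : QP Q p s c)
    (hd : QP Q p' s' d) : QP Q (p + p') (s * s') (conv c d) := by
  constructor
  · intro n
    unfold CM.conv
    rw [← tsum_mul_left]
    refine equiv_tsum (Equiv.addRight (2 * (p : ℤ))) fun i => ?_
    simp only [Equiv.coe_addRight]
    rw [hc.1, show n + 2 * ((p + p' : ℕ) : ℤ) - (i + 2 * p) = n - i + 2 * p' by push_cast; ring,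
      hd.1, show n + ((p + p' : ℕ) : ℤ) = (i + p) + (n - i + p') by push_cast; ring,
      zpow_add₀ h0 (i + p)]
    ring
  · intro n
    unfold CM.conv
    rw [← tsum_mul_left]
    refine equiv_tsum (Equiv.neg ℤ) fun i => ?_
    simp only [Equiv.neg_apply]
    rw [hc.2, show -n - -i = -(n - i) by ring, hd.2]
    ring

section
variable {Q : ℂ} (hQ : ‖Q‖ < 1) (h0 : Q ≠ 0)
include hQ h0

theorem QP.summ {p : ℕ} {s : ℂ} {c : ℤ → ℂ} (hc : QP Q p s c) {x : ℂ} (hx : x ≠ 0) :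
    Summable fun n => ‖c n * x ^ n‖ := by
  refine summable_qp hQ h0 (κ := Q ^ p * x ^ (2 * p))
    (mul_ne_zero (pow_ne_zero _ h0) (pow_ne_zero _ hx)) (2 * p) fun n => ?_
  push_cast
  rw [hc.1, zpow_add₀ h0, zpow_add₀ hx, ← zpow_natCast, ← zpow_natCast]
  push_cast
  ring

theorem ev_conv {p p' : ℕ} {s s' : ℂ} {c d : ℤ → ℂ} (hc : QP Q p s c)
    (hd : QP Q p' s' d) {x : ℂ} (hx : x ≠ 0) : ev (conv c d) x = ev c x * ev d x := by
  have h1 := hc.summ hQ h0 hx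
  have h2 := hd.summ hQ h0 hx
  have h3 := summable_mul_of_summable_norm h1 h2
  rw [ev, ev, ev, tsum_mul_tsum_of_summable_norm h1 h2]
  let e : ℤ × ℤ ≃ ℤ × ℤ :=
    ⟨fun z => (z.1 + z.2, z.1), fun z => (z.2, z.1 - z.2), fun z => by simp, fun z => by simp⟩
  obtain ⟨h4, h5⟩ := equiv_sum e (f := fun z => c z.2 * d (z.1 - z.2) * x ^ z.1) h3 (fun z => by
    simp only [e, Equiv.coe_fn_mk, add_sub_cancel_left, zpow_add₀ hx]; ring)
  rw [← h5, h4.tsum_prod]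
  refine tsum_congr fun n => ?_
  rw [conv, ← tsum_mul_right]

omit hQ in
theorem QP.shift {p : ℕ} {s : ℂ} {c : ℤ → ℂ} (hc : QP Q p s c) (t l : ℤ) :
    c (2 * p * l + t) = Q ^ (p * l ^ 2 + t * l) * c t := by
  induction l using Int.induction_on with
  | zero => simp
  | succ l ih =>
    rw [show 2 * (p : ℤ) * (l + 1) + t = (2 * p * l + t) + 2 * p by ring, hc.1, ih, ← mul_assoc,
      ← zpow_add₀ h0]
    congr 2; ring
  | pred l ih =>
    have := hc.1 (2 * (p : ℤ) * (-l - 1) + t)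
    rw [show 2 * (p : ℤ) * (-l - 1) + t + 2 * p = 2 * p * (-l) + t by ring, ih] at this
    have e : (p : ℤ) * (-l) ^ 2 + t * (-l) =
        (2 * p * (-l - 1) + t + p) + (p * (-l - 1) ^ 2 + t * (-l - 1)) := by ring
    rw [e, zpow_add₀ h0, mul_assoc] at this
    exact (mul_left_cancel₀ (zpow_ne_zero _ h0) this).symm

theorem QP.decomp {k : ℕ} {c : ℤ → ℂ} (hc : QP Q (k + 1) (-1) c) {x : ℂ} (hx : x ≠ 0) :
    ev c x = ∑ t : Fin k, (phi Q (k + 1) (-(((t : ℕ) : ℤ) + 1)) x -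
      phi Q (k + 1) (((t : ℕ) : ℤ) + 1) x) * -c (((t : ℕ) : ℤ) + 1) := by
  set ψ : ℤ → ℂ := fun j => ∑' l : ℤ, c (2 * (k + 1 : ℕ) * l + j) * x ^ (2 * (k + 1 : ℕ) * l + j)
    with hψ
  have hψ1 : ∀ j, ψ j = c j * phi Q (k + 1) j x := by
    intro j
    simp only [hψ, phi]
    rw [← tsum_mul_left]
    refine tsum_congr fun l => ?_
    rw [hc.shift h0]
    push_cast
    ring
  have hψ2 : ∀ j, ψ (j + 2 * (k + 1 : ℕ)) = ψ j := by
    intro j
    simp only [hψ]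
    refine (equiv_tsum (Equiv.addRight (1 : ℤ)) fun l => ?_).symm
    simp only [Equiv.coe_addRight]
    rw [show 2 * ((k + 1 : ℕ) : ℤ) * (l + 1) + j = 2 * (k + 1 : ℕ) * l + (j + 2 * (k + 1 : ℕ)) by
      ring]
  have h1 : ev c x = ∑ j ∈ range (2 * (k + 1)), ψ j := by
    obtain ⟨h4, h5⟩ := equiv_sum ((Int.divModEquiv (2 * (k + 1))).trans (Equiv.prodComm _ _))
      (f := fun z : Fin (2 * (k + 1)) × ℤ => c (2 * (k + 1 : ℕ) * z.2 + (z.1 : ℕ)) *
        x ^ (2 * (k + 1 : ℕ) * z.2 + (z.1 : ℕ))) (hc.summ hQ h0 hx).of_norm (fun n => by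
          have := (Int.divModEquiv (2 * (k + 1))).left_inv n
          simp only [Equiv.invFun_as_coe, Equiv.toFun_as_coe, Int.divModEquiv_symm_apply] at this
          simp only [Equiv.trans_apply, Equiv.prodComm_apply, Prod.snd_swap, Prod.fst_swap]
          have e : 2 * ((k + 1 : ℕ) : ℤ) * ((Int.divModEquiv (2 * (k + 1))) n).1 +
              ((((Int.divModEquiv (2 * (k + 1))) n).2 : ℕ) : ℤ) = n := by
            rw [← this]
            simp only [this]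
            push_cast at this ⊢
            linear_combination this
          rw [e])
    rw [ev, ← h5, h4.tsum_prod, tsum_fintype, ← Fin.sum_univ_eq_sum_range (fun j => ψ j)]
  have hc0 : c 0 = 0 := by
    have := hc.2 0
    rw [neg_zero] at this
    linear_combination (1 / 2 : ℂ) * this
  have hcp : c ((k : ℤ) + 1) = 0 := by
    have h2 := hc.1 (-((k : ℤ) + 1))
    rw [hc.2] at h2
    push_cast at h2
    rw [show -((k : ℤ) + 1) + 2 * (k + 1) = k + 1 by ring, neg_add_cancel, zpow_zero] at h2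
    linear_combination (1 / 2 : ℂ) * h2
  rw [h1, show 2 * (k + 1) = (k + 1) + (k + 1) by ring, sum_range_add, sum_range_succ',
    sum_range_succ', ← sum_range_reflect (fun i => ψ ((k + 1 + (i + 1) : ℕ) : ℤ)),
    Fin.sum_univ_eq_sum_range (fun t : ℕ => (phi Q (k + 1) (-((t : ℤ) + 1)) x -
      phi Q (k + 1) ((t : ℤ) + 1) x) * -c ((t : ℤ) + 1))]
  have z1 : ψ ((0 : ℕ) : ℤ) = 0 := by rw [hψ1]; simp [hc0]
  have z2 : ψ ((k + 1 + 0 : ℕ) : ℤ) = 0 := by rw [hψ1]; simp [hcp]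
  rw [z1, z2, add_zero, add_zero, ← sum_add_distrib]
  refine sum_congr rfl fun t ht => ?_
  have ht' := mem_range.1 ht
  rw [show ((k + 1 + (k - 1 - t + 1) : ℕ) : ℤ) = -((t : ℤ) + 1) + 2 * (k + 1 : ℕ) by
    push_cast; omega, hψ2, hψ1, hψ1, hc.2]
  push_cast
  ring

end

noncomputable def e0 (Q : ℂ) (n : ℤ) : ℂ := if n % 2 = 0 then Q ^ ((n / 2) ^ 2) else 0
noncomputable def e1 (Q : ℂ) (n : ℤ) : ℂ := if n % 2 = 0 then 0 else Q ^ ((n / 2) ^ 2 + n / 2)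
noncomputable def aa (Q : ℂ) (n : ℤ) : ℂ :=
  if n % 2 = 0 then 0 else (-1) ^ ((n + 1) / 2) * Q ^ tri ((n + 1) / 2)

theorem e0_even (Q : ℂ) (u : ℤ) : e0 Q (2 * u) = Q ^ (u ^ 2) := by
  rw [e0, if_pos (by omega), show 2 * u / 2 = u by omega]
theorem e0_odd (Q : ℂ) (u : ℤ) : e0 Q (2 * u + 1) = 0 := by
  rw [e0, if_neg (by omega)]
theorem e1_even (Q : ℂ) (u : ℤ) : e1 Q (2 * u) = 0 := by
  rw [e1, if_pos (by omega)]
theorem e1_odd (Q : ℂ) (u : ℤ) : e1 Q (2 * u + 1) = Q ^ (u ^ 2 + u) := by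
  rw [e1, if_neg (by omega), show (2 * u + 1) / 2 = u by omega]
theorem aa_even (Q : ℂ) (u : ℤ) : aa Q (2 * u) = 0 := by
  rw [aa, if_pos (by omega)]
theorem aa_odd (Q : ℂ) (u : ℤ) : aa Q (2 * u - 1) = (-1) ^ u * Q ^ tri u := by
  rw [aa, if_neg (by omega), show (2 * u - 1 + 1) / 2 = u by omega]

theorem par_cases (n : ℤ) : (∃ u, n = 2 * u) ∨ ∃ u, n = 2 * u + 1 := by
  rcases Int.emod_two_eq_zero_or_one n with h | h
  · exact Or.inl ⟨n / 2, by omega⟩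
  · exact Or.inr ⟨n / 2, by omega⟩

section
variable {Q : ℂ} (h0 : Q ≠ 0)
include h0

theorem QP_e0 : QP Q 1 1 (e0 Q) := by
  constructor <;> intro n <;> rcases par_cases n with ⟨u, rfl⟩ | ⟨u, rfl⟩
  · rw [show 2 * u + 2 * ((1 : ℕ) : ℤ) = 2 * (u + 1) by push_cast; ring, e0_even, e0_even,
      ← zpow_add₀ h0]
    congr 1; push_cast; ring
  · rw [show 2 * u + 1 + 2 * ((1 : ℕ) : ℤ) = 2 * (u + 1) + 1 by push_cast; ring, e0_odd, e0_odd,
      mul_zero]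
  · rw [show -(2 * u) = 2 * (-u) by ring, e0_even, e0_even, one_mul, neg_sq]
  · rw [show -(2 * u + 1) = 2 * (-u - 1) + 1 by ring, e0_odd, e0_odd, mul_zero]

theorem QP_e1 : QP Q 1 1 (e1 Q) := by
  constructor <;> intro n <;> rcases par_cases n with ⟨u, rfl⟩ | ⟨u, rfl⟩
  · rw [show 2 * u + 2 * ((1 : ℕ) : ℤ) = 2 * (u + 1) by push_cast; ring, e1_even, e1_even,
      mul_zero]
  · rw [show 2 * u + 1 + 2 * ((1 : ℕ) : ℤ) = 2 * (u + 1) + 1 by push_cast; ring, e1_odd, e1_odd,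
      ← zpow_add₀ h0]
    congr 1; push_cast; ring
  · rw [show -(2 * u) = 2 * (-u) by ring, e1_even, e1_even, mul_zero]
  · rw [show -(2 * u + 1) = 2 * (-u - 1) + 1 by ring, e1_odd, e1_odd, one_mul]
    congr 1; ring

theorem QP_aa : QP Q 2 (-1) (aa Q) := by
  have hm : (-1 : ℂ) ≠ 0 := by norm_num
  constructor <;> intro n <;> rcases par_cases n with ⟨u, rfl⟩ | ⟨u, rfl⟩
  · rw [show 2 * u + 2 * ((2 : ℕ) : ℤ) = 2 * (u + 2) by push_cast; ring, aa_even, aa_even,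
      mul_zero]
  · rw [show 2 * u + 1 + 2 * ((2 : ℕ) : ℤ) = 2 * (u + 1 + 1 + 1) - 1 by push_cast; ring,
      show 2 * u + 1 = 2 * (u + 1) - 1 by ring, aa_odd, aa_odd, tri_succ (u + 1 + 1),
      tri_succ (u + 1), zpow_add₀ hm (u + 1 + 1), zpow_add₀ hm (u + 1),
      show tri (u + 1) + (u + 1) + (u + 1 + 1) = (2 * (u + 1) - 1 + (2 : ℕ)) + tri (u + 1) by
        push_cast; ring, zpow_add₀ h0 _ (tri (u + 1))]
    ring
  · rw [show -(2 * u) = 2 * (-u) by ring, aa_even, aa_even, mul_zero]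
  · rw [show -(2 * u + 1) = 2 * (-u) - 1 by ring, show 2 * u + 1 = 2 * (u + 1) - 1 by ring,
      aa_odd, aa_odd, zpow_add₀ hm, zpow_neg, ← inv_zpow, inv_neg_one]
    have : tri (-u) = tri (u + 1) := by unfold tri; congr 1; ring
    rw [this]; ring

omit h0 in
theorem ev_aa {y : ℂ} (hy : y ≠ 0) : ev (aa Q) y = y⁻¹ * th Q (y ^ 2) := by
  have hinj : Function.Injective fun u : ℤ => 2 * u - 1 := fun a b h => by
    dsimp only at h; omega
  rw [ev, ← hinj.tsum_eq, th, ← tsum_mul_left]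
  · refine tsum_congr fun u => ?_
    rw [aa_odd, tt, zpow_sub₀ hy, zpow_mul, zpow_one, zpow_ofNat]
    ring
  · intro n hn
    rcases par_cases n with ⟨u, rfl⟩ | ⟨u, rfl⟩
    · simp [aa_even] at hn
    · exact ⟨u + 1, by ring⟩

theorem ev_B (hQ : ‖Q‖ < 1) {x y : ℂ} (hx : x ≠ 0) (hy : y ≠ 0) :
    ev (e1 Q) y * ev (e0 Q) x - ev (e1 Q) x * ev (e0 Q) y =
      y⁻¹ * (th Q (x * y) * th Q (y / x)) := by
  have hm : (-1 : ℂ) ≠ 0 := by norm_num
  have a0 := (QP_e0 h0).summ hQ h0 hx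
  have a1 := (QP_e1 h0).summ hQ h0 hx
  have b0 := (QP_e0 h0).summ hQ h0 hy
  have b1 := (QP_e1 h0).summ hQ h0 hy
  have c1 := summ_tt hQ h0 (mul_ne_zero hx hy)
  have c2 := summ_tt hQ h0 (div_ne_zero hy hx)
  rw [mul_comm (ev (e1 Q) y), ev, ev, ev, ev, th, th, tsum_mul_tsum_of_summable_norm a0 b1,
    tsum_mul_tsum_of_summable_norm a1 b0, tsum_mul_tsum_of_summable_norm c1 c2,
    ← (summable_mul_of_summable_norm a0 b1).tsum_sub (summable_mul_of_summable_norm a1 b0),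
    ← tsum_mul_left]
  have hinj : Function.Injective fun z : ℤ × ℤ => (z.1 - z.2, z.1 + z.2 - 1) := fun a b h => by
    simp only [Prod.mk.injEq] at h
    ext <;> omega
  rw [← hinj.tsum_eq]
  · refine tsum_congr fun z => ?_
    obtain ⟨n, m⟩ := z
    have t1 := two_tri n
    have t2 := two_tri m
    have hxy : x ^ (n - m) * y ^ (n + m - 1) = y⁻¹ * ((x * y) ^ n * (y / x) ^ m) := by
      rw [zpow_sub₀ hx, zpow_sub₀ hy, zpow_add₀ hy, mul_zpow, div_zpow, zpow_one]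
      field_simp
    have hs : ((-1 : ℂ)) ^ m * (-1) ^ m = 1 := by rw [← mul_zpow]; simp
    simp only [tt]
    rcases par_cases (n - m) with ⟨u, hu⟩ | ⟨u, hu⟩
    · have e2 : n + m - 1 = 2 * (u + m - 1) + 1 := by omega
      have e3 : n = 2 * u + m := by omega
      have e4 : tri n + tri m = u ^ 2 + ((u + m - 1) ^ 2 + (u + m - 1)) := by
        have : 2 * (tri n + tri m) = 2 * (u ^ 2 + ((u + m - 1) ^ 2 + (u + m - 1))) := by
          rw [mul_add, t1, t2, e3]; ring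
        omega
      have e5 : (-1 : ℂ) ^ n = (-1) ^ m := by
        rw [e3, zpow_add₀ hm, zpow_mul]; simp
      have e6 : Q ^ tri n * Q ^ tri m = Q ^ (u ^ 2) * Q ^ ((u + m - 1) ^ 2 + (u + m - 1)) := by
        rw [← zpow_add₀ h0, ← zpow_add₀ h0, e4]
      have f1 : e0 Q (n - m) = Q ^ (u ^ 2) := by rw [hu, e0_even]
      have f2 : e1 Q (n - m) = 0 := by rw [hu, e1_even]
      have f3 : e1 Q (n + m - 1) = Q ^ ((u + m - 1) ^ 2 + (u + m - 1)) := by rw [e2, e1_odd]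
      rw [f1, f2, f3, e5]
      linear_combination (Q ^ tri n * Q ^ tri m) * hxy - (x ^ (n - m) * y ^ (n + m - 1)) * e6
        - (y⁻¹ * Q ^ tri n * Q ^ tri m * (x * y) ^ n * (y / x) ^ m) * hs
    · have e2 : n + m - 1 = 2 * (u + m) := by omega
      have e3 : n = 2 * u + m + 1 := by omega
      have e4 : tri n + tri m = (u ^ 2 + u) + (u + m) ^ 2 := by
        have : 2 * (tri n + tri m) = 2 * ((u ^ 2 + u) + (u + m) ^ 2) := by
          rw [mul_add, t1, t2, e3]; ring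
        omega
      have e5 : (-1 : ℂ) ^ n = -(-1) ^ m := by
        rw [e3, zpow_add₀ hm, zpow_add₀ hm, zpow_mul]; simp
      have e6 : Q ^ tri n * Q ^ tri m = Q ^ (u ^ 2 + u) * Q ^ ((u + m) ^ 2) := by
        rw [← zpow_add₀ h0, ← zpow_add₀ h0, e4]
      have f1 : e0 Q (n - m) = 0 := by rw [hu, e0_odd]
      have f2 : e1 Q (n - m) = Q ^ (u ^ 2 + u) := by rw [hu, e1_odd]
      have f3 : e0 Q (n + m - 1) = Q ^ ((u + m) ^ 2) := by rw [e2, e0_even]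
      rw [f1, f2, f3, e5]
      linear_combination -(Q ^ tri n * Q ^ tri m) * hxy + (x ^ (n - m) * y ^ (n + m - 1)) * e6
        + (y⁻¹ * Q ^ tri n * Q ^ tri m * (x * y) ^ n * (y / x) ^ m) * hs
  · rintro ⟨d, s⟩ hn
    rcases par_cases d with ⟨u, rfl⟩ | ⟨u, rfl⟩ <;> rcases par_cases s with ⟨v, rfl⟩ | ⟨v, rfl⟩
    · simp [e1_even] at hn
    · exact ⟨(u + v + 1, v + 1 - u), by simp only [Prod.mk.injEq]; constructor <;> ring⟩
    · exact ⟨(u + v + 1, v - u), by simp only [Prod.mk.injEq]; constructor <;> ring⟩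
    · simp [e0_odd] at hn

end

theorem exists_QP {Q : ℂ} (hQ : ‖Q‖ < 1) (h0 : Q ≠ 0) (i j : ℕ) :
    ∃ c, QP Q (i + j + 1 + 1) (-1) c ∧
      ∀ x, x ≠ 0 → ev c x = ev (aa Q) x * (ev (e1 Q) x ^ i * ev (e0 Q) x ^ j) := by
  induction i with
  | zero =>
    induction j with
    | zero => exact ⟨aa Q, QP_aa h0, fun x _ => by simp⟩
    | succ j ih =>
      obtain ⟨c, h1, h2⟩ := ih
      refine ⟨conv c (e0 Q), ?_, fun x hx => ?_⟩
      · have := h1.conv h0 (QP_e0 h0)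
        rw [mul_one] at this
        exact this
      · rw [ev_conv hQ h0 h1 (QP_e0 h0) hx, h2 x hx]; ring
  | succ i ih =>
    obtain ⟨c, h1, h2⟩ := ih
    refine ⟨conv c (e1 Q), ?_, fun x hx => ?_⟩
    · have := h1.conv h0 (QP_e1 h0)
      rw [mul_one] at this
      rwa [show i + 1 + j + 1 + 1 = i + j + 1 + 1 + 1 by ring]
    · rw [ev_conv hQ h0 h1 (QP_e1 h0) hx, h2 x hx]; ring

/-- theta function in product form -/
noncomputable def θ (z Q : ℂ) : ℂ := poch z Q * poch (Q / z) Q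

noncomputable def PhiMat (Q : ℂ) {k : ℕ} (y : Fin k → ℂ) : Matrix (Fin k) (Fin k) ℂ :=
  Matrix.of fun t s => phi Q (k + 1) (-(((t : ℕ) : ℤ) + 1)) (y s) -
    phi Q (k + 1) (((t : ℕ) : ℤ) + 1) (y s)

/-- The Macdonald identity of type C, up to a constant. -/
theorem mac {Q : ℂ} (hQ : ‖Q‖ < 1) (h0 : Q ≠ 0) (k : ℕ) : ∃ κ : ℂ, ∀ y : Fin k → ℂ,
    (∀ s, y s ≠ 0) → (∏ t : Fin k, y t ^ ((t : ℕ) + 1)) * (PhiMat Q y).det * κ =
      ∏ j : Fin k, (θ (y j ^ 2) Q * ∏ i ∈ Iio j, θ (y i * y j) Q * θ (y j / y i) Q) := by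
  have hc : ∀ j : Fin k, ∃ c, QP Q (k + 1) (-1) c ∧ ∀ x, x ≠ 0 →
      ev c x = ev (aa Q) x * (ev (e1 Q) x ^ (j : ℕ) * ev (e0 Q) x ^ (j.rev : ℕ)) := by
    intro j
    have := exists_QP hQ h0 j j.rev
    rwa [show (j : ℕ) + j.rev + 1 = k by have := j.2; rw [Fin.val_rev]; omega] at this
  choose c hc1 hc2 using hc
  set C : Matrix (Fin k) (Fin k) ℂ := Matrix.of fun t j => -c j (((t : ℕ) : ℤ) + 1) with hC
  have hP := poch_ne' hQ hQ
  refine ⟨C.det * (∏ j : Fin k, (poch Q Q * ∏ _i ∈ Iio j, poch Q Q * poch Q Q))⁻¹, fun y hy => ?_⟩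
  have h1 : (PhiMat Q y).transpose * C = Matrix.of fun s j => ev (aa Q) (y s) *
      Matrix.projVandermonde (fun s => ev (e1 Q) (y s)) (fun s => ev (e0 Q) (y s)) s j := by
    ext s j
    have := (hc1 j).decomp hQ h0 (hy s)
    rw [hc2 j _ (hy s)] at this
    simp only [Matrix.mul_apply, Matrix.transpose_apply, PhiMat, hC, Matrix.of_apply,
      Matrix.projVandermonde, Matrix.rectVandermonde]
    exact this.symm
  have h2 := congrArg Matrix.det h1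
  rw [Matrix.det_mul, Matrix.det_transpose, Matrix.det_mul_column, Matrix.det_projVandermonde,
    prod_comm' (t' := univ) (s' := fun j => Iio j) (by simp)] at h2
  have h3 : (∏ j : Fin k, (poch Q Q * ∏ _i ∈ Iio j, poch Q Q * poch Q Q)) ≠ 0 :=
    prod_ne_zero_iff.2 fun j _ => mul_ne_zero hP (prod_ne_zero_iff.2 fun _ _ => mul_ne_zero hP hP)
  rw [← mul_assoc, mul_assoc _ _ C.det, h2, mul_inv_eq_iff_eq_mul₀ h3, ← prod_mul_distrib,
    ← prod_mul_distrib, ← prod_mul_distrib]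
  refine prod_congr rfl fun j _ => ?_
  have h4 : ∏ i ∈ Iio j, (ev (e1 Q) (y j) * ev (e0 Q) (y i) - ev (e1 Q) (y i) * ev (e0 Q) (y j)) =
      (y j)⁻¹ ^ (j : ℕ) * ((∏ i ∈ Iio j, θ (y i * y j) Q * θ (y j / y i) Q) *
        ∏ _i ∈ Iio j, poch Q Q * poch Q Q) := by
    rw [← Fin.card_Iio j, ← prod_const, ← prod_mul_distrib, ← prod_mul_distrib]
    refine prod_congr rfl fun i _ => ?_
    rw [ev_B h0 hQ (hy i) (hy j), jtp hQ h0 (mul_ne_zero (hy i) (hy j)),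
      jtp hQ h0 (div_ne_zero (hy j) (hy i)), θ, θ]
    ring
  rw [h4, ev_aa (hy j), jtp hQ h0 (pow_ne_zero _ (hy j)), θ]
  have h5 : y j ^ ((j : ℕ) + 1) * ((y j)⁻¹ * (y j)⁻¹ ^ (j : ℕ)) = 1 := by
    rw [← pow_succ', ← mul_pow, mul_inv_cancel₀ (hy j), one_pow]
  linear_combination (poch Q Q * (poch (y j ^ 2) Q * poch (Q / y j ^ 2) Q) *
    ((∏ i ∈ Iio j, θ (y i * y j) Q * θ (y j / y i) Q) * ∏ _i ∈ Iio j, poch Q Q * poch Q Q)) * h5

end Pool.Agent.H340Z.CM
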