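import Pool.Agent.H340Z.CM.Sum

set_option autoImplicit false
set_option maxHeartbeats 400000

namespace Pool.Agent.H340Z.CM

open Filter Topology Finset

def VP (σ : ℤ) (p : ℕ → ℤ) (a b : ℕ) : Prop :=
  (∀ c, a ≤ c → c ≤ b → -1 ≤ p c ∧ (p c + c - σ) % 2 = 0) ∧
    ∀ r, a ≤ r → r < b → (p r - p (r + 1) = 1 ∨ p r - p (r + 1) = -1)

def AdmP (m : ℕ) (σ : ℤ) (Fz : ℤ → ℕ → ℕ) (K : ℕ) : Prop :=
  ∀ p : ℕ → ℤ, VP σ p 1 m → ∑ c ∈ Icc 1 m, Fz (p c) c ≤ K

def zz (σ : ℤ) (c : ℕ) : ℤ := if ((c : ℤ) - σ) % 2 = 0 then 0 else -1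

def Sz (σ : ℤ) (Fz : ℤ → ℕ → ℕ) (c : ℕ) : ℕ := ∑ c' ∈ Icc 1 c, Fz (zz σ c') c'

theorem VP_zz (σ : ℤ) (a b : ℕ) : VP σ (zz σ) a b := by
  constructor
  · intro c _ _; unfold zz; split_ifs <;> omega
  · intro c _ _; unfold zz; push_cast; split_ifs <;> omega

theorem glue {m : ℕ} {σ : ℤ} {Fz : ℤ → ℕ → ℕ} {K : ℕ} (h : AdmP m σ Fz K) {p s : ℕ → ℤ} {c : ℕ}
    (hc : c ≤ m) (hp : VP σ p 1 c) (hs : VP σ s (c + 1) m)
    (hadj : c < m → (p c - s (c + 1) = 1 ∨ p c - s (c + 1) = -1)) :
    ∑ x ∈ Icc 1 c, Fz (p x) x + ∑ x ∈ Ioc c m, Fz (s x) x ≤ K := by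
  have := h (fun x => if x ≤ c then p x else s x) ⟨fun x h1 h2 => ?_, fun r h1 h2 => ?_⟩
  · rw [show Icc 1 m = Ioc 0 m from rfl, ← sum_Ioc_consecutive _ (Nat.zero_le c) hc] at this
    refine le_trans (le_of_eq ?_) this
    congr 1
    · exact sum_congr rfl fun x hx => by rw [if_pos (mem_Icc.1 hx).2]
    · exact sum_congr rfl fun x hx => by rw [if_neg (not_le.2 (mem_Ioc.1 hx).1)]
  · dsimp only
    split_ifs with h3
    · exact hp.1 x h1 h3
    · exact hs.1 x (by omega) h2
  · dsimp only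
    split_ifs with h3 h4 h4
    · exact hp.2 r h1 (by omega)
    · obtain rfl : r = c := by omega
      exact hadj h2
    · omega
    · exact hs.2 r (by omega) h2

theorem admP_iff {m k : ℕ} {x0 : St k} {σ : ℤ} (hσ : ∀ t, (x0 t - σ) % 2 = 0) (hx : Valid m x0)
    {f : ℕ → ℕ → ℕ} {Fz : ℤ → ℕ → ℕ} (hF : ∀ i c : ℕ, Fz ((i : ℤ) + 1) c = f (i + 1) c)
    (H1 : Sz σ Fz m = k)
    (H2 : ∀ c : ℕ, c < m → ((c : ℤ) - σ) % 2 = 0 → Sz σ Fz c = cnt x0 c)
    (H3 : ∀ c : ℕ, 1 ≤ c → c < m → ((1 : ℤ) + c - σ) % 2 = 0 → Sz σ Fz c = cnt x0 (c + 1)) :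
    AdmP m σ Fz k ↔ Adm m x0 σ f := by
  constructor
  · intro h
    have pre : ∀ c : ℕ, c ≤ m → ∀ i : ℕ, ((i : ℤ) + c - σ) % 2 = 0 → (c < m ∨ 1 ≤ i) →
        ∃ p, VP σ p 1 c ∧ p c = i ∧ Gf x0 f c i ≤ ∑ x ∈ Icc 1 c, Fz (p x) x := by
      intro c
      induction c with
      | zero =>
        intro _ i _ _
        exact ⟨fun _ => i, ⟨fun c h1 h2 => by omega, fun c h1 h2 => by omega⟩, rfl, by simp [Gf]⟩
      | succ c ih =>
        intro hc i hp hi
        cases i with
        | zero =>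
          refine ⟨zz σ, VP_zz _ _ _, by rw [zz, if_pos (by simpa using hp)]; rfl, ?_⟩
          rw [Gf, ← H2 (c + 1) (by omega) (by simpa using hp), Sz]
        | succ i =>
          push_cast at hp
          obtain ⟨j, hj, hj'⟩ : ∃ j, (j = i ∨ j = i + 2) ∧
              max (Gf x0 f c i) (Gf x0 f c (i + 2)) = Gf x0 f c j := by
            rcases le_total (Gf x0 f c i) (Gf x0 f c (i + 2)) with h | h
            · exact ⟨i + 2, Or.inr rfl, max_eq_right h⟩
            · exact ⟨i, Or.inl rfl, max_eq_left h⟩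
          obtain ⟨p, h1, h2, h3⟩ := ih (by omega) j (by omega) (Or.inl (by omega))
          refine ⟨Function.update p (c + 1) (i + 1 : ℕ), ⟨fun x a1 a2 => ?_, fun x a1 a2 => ?_⟩,
            Function.update_self _ _ _, ?_⟩
          · rcases a2.eq_or_lt with rfl | a2
            · rw [Function.update_self]; push_cast; omega
            · rw [Function.update_of_ne (by omega)]; exact h1.1 x a1 (by omega)
          · rcases (Nat.lt_succ_iff.1 a2).eq_or_lt with rfl | a2
            · rw [Function.update_self, Function.update_of_ne (by omega), h2]; omega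
            · rw [Function.update_of_ne (by omega), Function.update_of_ne (by omega)]
              exact h1.2 x a1 a2
          · rw [sum_Icc_succ_top (by omega), Function.update_self, Gf, hj',
              sum_congr rfl fun x hx => by
                rw [Function.update_of_ne (by have := mem_Icc.1 hx; omega)]]
            push_cast
            rw [hF]
            omega
    have A1 : ∀ c i : ℕ, c ≤ m → ((i : ℤ) + c - σ) % 2 = 0 → Gf x0 f c i ≤ k := by
      intro c i hc hp
      rcases Nat.eq_zero_or_pos i with rfl | hi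
      · rw [Gf_zero hx]; exact cnt_le _ _
      · obtain ⟨p, h1, h2, h3⟩ := pre c hc i hp (Or.inr hi)
        have := glue h (s := fun x => (i : ℤ) + x - c) hc h1
          ⟨fun x a1 a2 => by dsimp only; omega, fun x a1 a2 => by push_cast; omega⟩
          (fun _ => by rw [h2]; push_cast; omega)
        omega
    refine ⟨A1, fun c hc hp => ?_⟩
    rcases Nat.eq_zero_or_pos c with rfl | hc0
    · simp [Gf]
    rcases hc.eq_or_lt with rfl | hc'
    · rw [cnt_full (x := x0) fun t => by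
        have := hσ t
        have := (hx.2 t).2
        push_cast
        omega]
      exact A1 c 1 le_rfl (by simpa using hp)
    · obtain ⟨p, h1, h2, h3⟩ := pre c hc 1 (by simpa using hp) (Or.inr le_rfl)
      have h4 := glue h hc h1 (VP_zz σ _ _) (fun _ => by
        rw [h2, zz, if_pos (by push_cast; omega)]; simp)
      have h5 : Sz σ Fz c + ∑ x ∈ Ioc c m, Fz (zz σ x) x = Sz σ Fz m :=
        sum_Ioc_consecutive _ (Nat.zero_le c) hc
      rw [← H3 c hc0 hc' hp]
      omega
  · intro h p hp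
    set Pot : ℤ → ℕ → ℕ := fun i c => if 1 ≤ i then Gf x0 f c i.toNat else Sz σ Fz c with hPot
    have hz : ∀ c, 1 ≤ c → c ≤ m → ¬ 1 ≤ p c → p c = zz σ c := by
      intro c h1 h2 h3
      have := hp.1 c h1 h2
      unfold zz; split_ifs <;> omega
    have key : ∀ c, c + 1 ≤ m → ∑ x ∈ Icc 1 (c + 1), Fz (p x) x ≤ Pot (p (c + 1)) (c + 1) := by
      intro c
      induction c with
      | zero =>
        intro hc
        simp only [hPot, zero_add, Icc_self, sum_singleton]
        split_ifs with h1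
        · obtain ⟨i, hi⟩ : ∃ i : ℕ, p 1 = i + 1 := ⟨(p 1 - 1).toNat, by omega⟩
          rw [hi, hF, show ((i : ℤ) + 1).toNat = i + 1 by omega, Gf]
          exact Nat.le_add_right _ _
        · rw [hz 1 le_rfl hc h1, Sz, Icc_self, sum_singleton]
      | succ c ih =>
        intro hc
        rw [sum_Icc_succ_top (by omega)]
        refine (Nat.add_le_add_right (ih (by omega)) _).trans ?_
        have a1 := hp.1 (c + 1) (by omega) (by omega)
        have a2 := hp.2 (c + 1) (by omega) (by omega)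
        simp only [hPot]
        by_cases h2 : 1 ≤ p (c + 1 + 1)
        · obtain ⟨i, hi⟩ : ∃ i : ℕ, p (c + 1 + 1) = i + 1 := ⟨(p (c + 1 + 1) - 1).toNat, by omega⟩
          rw [if_pos h2, hi, hF, show ((i : ℤ) + 1).toNat = i + 1 by omega, Gf]
          split_ifs with h1
          · rcases a2 with a2 | a2
            · rw [show (p (c + 1)).toNat = i + 2 by omega]; omega
            · rw [show (p (c + 1)).toNat = i by omega]; omega
          · obtain rfl : i = 0 := by omega
            rw [H2 (c + 1) (by omega) (by omega), Gf_zero hx]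
            omega
        · have e : Sz σ Fz (c + 1 + 1) = Sz σ Fz (c + 1) + Fz (zz σ (c + 1 + 1)) (c + 1 + 1) :=
            sum_Icc_succ_top (by omega) _
          rw [if_neg h2, hz _ (by omega) hc h2, e]
          refine Nat.add_le_add_right ?_ _
          split_ifs with h1
          · rw [show (p (c + 1)).toNat = 1 by omega]
            exact (h.2 (c + 1) (by omega) (by omega)).trans
              (H3 (c + 1) (by omega) (by omega) (by omega)).ge
          · exact le_rfl
    rcases m with _ | m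
    · simp
    refine (key m le_rfl).trans ?_
    simp only [hPot]
    split_ifs with h1
    · have := hp.1 (m + 1) (by omega) le_rfl
      exact h.1 _ _ le_rfl (by omega)
    · exact H1.le

/-- partial sums of the levels -/
def KK (k : ℕ → ℕ) (c : ℕ) : ℕ := ∑ t ∈ range (c + 1), k t

theorem KK_succ (k : ℕ → ℕ) (c : ℕ) : KK k (c + 1) = KK k c + k (c + 1) := sum_range_succ _ _

theorem KK_mono (k : ℕ → ℕ) : Monotone (KK k) :=
  monotone_nat_of_le_succ fun c => by rw [KK_succ]; omega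

theorem KK_tail (k : ℕ → ℕ) {c n : ℕ} (h : c ≤ n) :
    KK k c + ∑ t ∈ Icc (c + 1) n, k t = KK k n := by
  induction n, h using Nat.le_induction with
  | base => simp
  | succ n h ih => rw [sum_Icc_succ_top (by omega), KK_succ]; omega

/-- the group of a walker -/
noncomputable def grp (k : ℕ → ℕ) (n : ℕ) (t : Fin (KK k n)) : ℕ :=
  Nat.find (⟨n, t.2⟩ : ∃ c, (t : ℕ) < KK k c)

theorem grp_le_iff (k : ℕ → ℕ) (n : ℕ) (t : Fin (KK k n)) (c : ℕ) :
    grp k n t ≤ c ↔ (t : ℕ) < KK k c :=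
  ⟨fun h => (Nat.find_spec (⟨n, t.2⟩ : ∃ c, (t : ℕ) < KK k c)).trans_le (KK_mono k h),
    fun h => Nat.find_min' _ h⟩

theorem grp_le (k : ℕ → ℕ) (n : ℕ) (t : Fin (KK k n)) : grp k n t ≤ n := (grp_le_iff k n t n).2 t.2

theorem grp_mono (k : ℕ → ℕ) (n : ℕ) : Monotone (grp k n) := fun s t hst =>
  (grp_le_iff k n s _).2 (lt_of_le_of_lt hst ((grp_le_iff k n t _).1 le_rfl))

noncomputable def xx (k : ℕ → ℕ) (n off : ℕ) : St (KK k n) := fun t => 2 * grp k n t + off

noncomputable def uu (k : ℕ → ℕ) (n : ℕ) (t : Fin (KK k n)) : ℕ := grp k n t + t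

theorem uu_mono (k : ℕ → ℕ) (n : ℕ) : StrictMono (uu k n) := fun s t hst => by
  have := grp_mono k n hst.le
  have : (s : ℕ) < t := hst
  unfold uu; omega

theorem xx_eq (k : ℕ → ℕ) (n off : ℕ) (t : Fin (KK k n)) :
    xx k n off t + 2 * (t : ℕ) = 2 * uu k n t + off := by
  unfold xx uu; push_cast; ring

theorem xx_valid (k : ℕ → ℕ) (n : ℕ) {off m : ℕ} (h1 : 1 ≤ off) (h2 : 2 * n + off ≤ m + 2) :
    Valid m (xx k n off) := by
  refine ⟨fun s t hst => ?_, fun t => ?_⟩
  · have := grp_mono k n hst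
    unfold xx; omega
  · have := grp_le k n t
    unfold xx; omega

theorem cnt_xx (k : ℕ → ℕ) (n off : ℕ) {c : ℕ} (hc : c ≤ n) :
    cnt (xx k n off) (2 * c + off) = KK k c := by
  refine cnt_eq_of_iff (KK_mono k hc) fun t => ?_
  rw [← grp_le_iff]
  unfold xx; push_cast; omega

def bb (k : ℕ → ℕ) (c : ℕ) : ℕ := KK k c + c

theorem bb_mono (k : ℕ → ℕ) : StrictMono (bb k) :=
  strictMono_nat_of_lt_succ fun c => by unfold bb; rw [KK_succ]; omega

theorem uu_sub (k : ℕ → ℕ) (n : ℕ) : univ.image (uu k n) ⊆ range (n + KK k n) := by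
  intro a ha
  obtain ⟨t, -, rfl⟩ := mem_image.1 ha
  have := grp_le k n t
  have := t.2
  rw [mem_range]; unfold uu; omega

theorem compl_uu (k : ℕ → ℕ) (n : ℕ) :
    range (n + KK k n) \ univ.image (uu k n) = (range n).image (bb k) := by
  symm
  refine eq_of_subset_of_card_le (fun a ha => ?_) ?_
  · obtain ⟨c, hc, rfl⟩ := mem_image.1 ha
    have hc' := mem_range.1 hc
    have := KK_mono k hc'.le
    refine mem_sdiff.2 ⟨by rw [mem_range]; unfold bb; omega, fun hm => ?_⟩
    obtain ⟨t, -, ht⟩ := mem_image.1 hm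
    have := grp_le_iff k n t c
    unfold uu bb at ht
    omega
  · rw [card_sdiff_of_subset (uu_sub k n), card_image_of_injective _ (uu_mono k n).injective,
      card_image_of_injective _ (bb_mono k).injective]
    simp

theorem W_bb (g : ℕ → ℕ → ℂ) (k : ℕ → ℕ) (n : ℕ) :
    W g ((range n).image (bb k)) =
      ∏ i ∈ Icc 1 n, ∏ j ∈ Ioc i n, g (bb k (i - 1)) (bb k (j - 1)) := by
  rw [W, prod_image fun a _ b _ h => (bb_mono k).injective h,
    prod_comm' (s := Icc 1 n) (t' := Icc 1 n) (s' := fun j => Ico 1 j) (by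
      intro a b; simp only [mem_Icc, mem_Ioc, mem_Ico]; omega),
    show Icc 1 n = Ico 1 (n + 1) from rfl, prod_Ico_eq_prod_range, Nat.add_sub_cancel]
  refine prod_congr rfl fun j hj => ?_
  rw [filter_image, prod_image fun a _ b _ h => (bb_mono k).injective h, prod_Ico_eq_prod_range]
  simp only [Nat.add_sub_cancel_left, (bb_mono k).lt_iff_lt]
  rw [filter_lt_range (mem_range.1 hj).le]

end Pool.Agent.H340Z.CM
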