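import Pool.Agent.H340Z.CM.Mac

set_option autoImplicit false
set_option maxHeartbeats 400000

namespace Pool.Agent.H340Z.CM

open Filter Topology Finset

theorem poch_split (z : ℂ) {q : ℂ} (hq : ‖q‖ < 1) (N : ℕ) (hN : 0 < N) :
    poch z q = ∏ j ∈ range N, poch (z * q ^ j) (q ^ N) := by
  have : NeZero N := ⟨hN.ne'⟩
  have hqN : ‖q ^ N‖ < 1 := by rw [norm_pow]; exact pow_lt_one₀ (norm_nonneg _) hq hN.ne'
  let e : ℕ ≃ Fin N × ℕ := (Nat.divModEquiv N).trans (Equiv.prodComm _ _)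
  have h1 : HasProd (fun z' : Fin N × ℕ => 1 - z * q ^ (z'.1 : ℕ) * (q ^ N) ^ z'.2) (poch z q) := by
    rw [← e.hasProd_iff, poch]
    convert (mult_poch z hq).hasProd using 1
    funext n
    simp only [e, Function.comp, Equiv.trans_apply, Equiv.prodComm_apply, Prod.fst_swap,
      Prod.snd_swap, Nat.divModEquiv_apply, Fin.val_ofNat]
    rw [← pow_mul, mul_assoc, ← pow_add, Nat.mod_add_div]
  have h2 := h1.prod_fiberwise fun j => (mult_poch (z * q ^ (j : ℕ)) hqN).hasProd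
  rw [h2.unique (hasProd_fintype _), ← Fin.prod_univ_eq_prod_range
    (fun j => poch (z * q ^ j) (q ^ N))]
  rfl

noncomputable def η (q : ℂ) (M j : ℕ) : ℂ := poch (q ^ j) (q ^ M)
noncomputable def T (q : ℂ) (M j : ℕ) : ℂ := η q M j * η q M (M - j)
noncomputable def E (q : ℂ) (M x : ℕ) : ℂ := ∏ l ∈ range x, η q M (l + 1)
noncomputable def E' (q : ℂ) (M x : ℕ) : ℂ := ∏ l ∈ range x, η q M (M - (l + 1))
noncomputable def F (q : ℂ) (M x : ℕ) : ℂ := ∏ l ∈ range x, T q M (l + 1)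

theorem norm_pow_lt {q : ℂ} (hq : ‖q‖ < 1) {n : ℕ} (hn : 0 < n) : ‖q ^ n‖ < 1 := by
  rw [norm_pow]; exact pow_lt_one₀ (norm_nonneg _) hq hn.ne'

theorem η_ne {q : ℂ} (hq : ‖q‖ < 1) {M j : ℕ} (hM : 0 < M) (hj : 0 < j) : η q M j ≠ 0 :=
  poch_ne' (norm_pow_lt hq hM) (norm_pow_lt hq hj)

theorem E_ne {q : ℂ} (hq : ‖q‖ < 1) {M : ℕ} (hM : 0 < M) (x : ℕ) : E q M x ≠ 0 :=
  prod_ne_zero_iff.2 fun _ _ => η_ne hq hM (Nat.succ_pos _)

theorem θ_eq_T {q : ℂ} (h0 : q ≠ 0) {M j : ℕ} (h : j ≤ M) : θ (q ^ j) (q ^ M) = T q M j := by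
  rw [θ, T, η, η, pow_sub₀ _ h0 h, div_eq_mul_inv]

theorem F_eq (q : ℂ) (M x : ℕ) : F q M x = E q M x * E' q M x := by
  simp only [F, E, E', T, prod_mul_distrib]

theorem E_mul_E' (q : ℂ) {M x y : ℕ} (h : x + y + 1 = M) : E q M x * E' q M y = E q M (M - 1) := by
  rw [show M - 1 = x + y by omega, E, E, prod_range_add, E']
  congr 1
  rw [← prod_range_reflect]
  refine prod_congr rfl fun l hl => ?_
  have := mem_range.1 hl
  congr 1; omega

theorem F_mul_F (q : ℂ) {M x y : ℕ} (h : x + y + 1 = M) :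
    F q M x * F q M y = E q M (M - 1) * E q M (M - 1) := by
  rw [F_eq, F_eq]
  have h1 := E_mul_E' q h
  have h2 := E_mul_E' q (M := M) (x := y) (y := x) (by omega)
  linear_combination (E q M y * E' q M x) * h1 + E q M (M - 1) * h2

theorem poch_eq_E {q : ℂ} (hq : ‖q‖ < 1) {M : ℕ} (hM : 0 < M) :
    poch q q = E q M (M - 1) * poch (q ^ M) (q ^ M) := by
  obtain ⟨M, rfl⟩ : ∃ M', M = M' + 1 := ⟨M - 1, by omega⟩
  rw [poch_split q hq (M + 1) hM, prod_range_succ, E, Nat.add_sub_cancel]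
  simp only [η, pow_succ']

noncomputable def gg (q : ℂ) (M off i j : ℕ) : ℂ := T q M (i + j + off) * T q M (j - i)

noncomputable def W (g : ℕ → ℕ → ℂ) (X : Finset ℕ) : ℂ := ∏ j ∈ X, ∏ i ∈ X with i < j, g i j

theorem prod_ind {U X : Finset ℕ} (h : X ⊆ U) (f : ℕ → ℂ) :
    ∏ j ∈ X, f j = ∏ j ∈ U, if j ∈ X then f j else 1 := by
  rw [← prod_filter, filter_mem_eq_inter, inter_eq_right.2 h]

theorem W_ind (g : ℕ → ℕ → ℂ) {U X : Finset ℕ} (h : X ⊆ U) :
    W g X = ∏ j ∈ U, ∏ i ∈ U, if j ∈ X ∧ i ∈ X ∧ i < j then g i j else 1 := by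
  rw [W, prod_ind h]
  refine prod_congr rfl fun j _ => ?_
  by_cases hj : j ∈ X
  · rw [if_pos hj, prod_ind ((filter_subset _ _).trans h)]
    simp [hj]
  · simp [hj]

theorem W_compl (g : ℕ → ℕ → ℂ) {U X : Finset ℕ} (h : X ⊆ U) :
    W g X * ∏ b ∈ U \ X, ((∏ a ∈ U with a < b, g a b) * ∏ a ∈ U with b < a, g b a) =
      W g U * W g (U \ X) := by
  have h1 : ∏ b ∈ U \ X, (∏ a ∈ U with a < b, g a b) =
      ∏ j ∈ U, ∏ i ∈ U, if j ∉ X ∧ i < j then g i j else 1 := by
    rw [prod_ind sdiff_subset]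
    refine prod_congr rfl fun j hj => ?_
    by_cases hj' : j ∈ X <;> simp [hj, hj', prod_filter]
  have h2 : ∏ b ∈ U \ X, (∏ a ∈ U with b < a, g b a) =
      ∏ j ∈ U, ∏ i ∈ U, if i ∉ X ∧ i < j then g i j else 1 := by
    rw [prod_ind sdiff_subset, Finset.prod_comm]
    refine prod_congr rfl fun j hj => ?_
    by_cases hj' : j ∈ X <;> simp [hj, hj', prod_filter]
  rw [prod_mul_distrib, h1, h2, W_ind g h, W_ind g (Subset.refl U), W_ind g sdiff_subset]
  simp only [← prod_mul_distrib]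
  refine prod_congr rfl fun j hj => prod_congr rfl fun i hi => ?_
  by_cases h1 : i < j <;> by_cases h2 : i ∈ X <;> by_cases h3 : j ∈ X <;> simp [h1, h2, h3, hi, hj]

theorem filter_lt_range {N b : ℕ} (h : b ≤ N) : (range N).filter (· < b) = range b := by
  ext a; simp only [mem_filter, mem_range]; omega

theorem prod_T_sub (q : ℂ) (M b : ℕ) : ∏ a ∈ range b, T q M (b - a) = F q M b := by
  rw [F, ← prod_range_reflect]
  refine prod_congr rfl fun l hl => ?_
  have := mem_range.1 hl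
  congr 1; omega

theorem R_eq (q : ℂ) (M off : ℕ) {N b : ℕ} (h : b < N) :
    ((∏ a ∈ range N with a < b, gg q M off a b) * ∏ a ∈ range N with b < a, gg q M off b a) *
      T q M (2 * b + off) =
      F q M b * (∏ a ∈ range N, T q M (b + off + a)) * F q M (N - 1 - b) := by
  obtain ⟨c, rfl⟩ : ∃ c, N = b + 1 + c := ⟨N - (b + 1), by omega⟩
  have h1 : (range (b + 1 + c)).filter (b < ·) = Ico (b + 1) (b + 1 + c) := by
    ext a; simp only [mem_filter, mem_range, mem_Ico]; omega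
  rw [filter_lt_range h.le, h1, prod_Ico_eq_prod_range, prod_range_add, prod_range_succ,
    show b + 1 + c - (b + 1) = c by omega, show b + 1 + c - 1 - b = c by omega]
  simp only [gg, prod_mul_distrib, prod_T_sub]
  have e1 : ∏ a ∈ range b, T q M (a + b + off) = ∏ a ∈ range b, T q M (b + off + a) :=
    prod_congr rfl fun a _ => by congr 1; ring
  have e2 : ∏ a ∈ range c, T q M (b + (b + 1 + a) + off) =
      ∏ a ∈ range c, T q M (b + off + (b + 1 + a)) := prod_congr rfl fun a _ => by congr 1; ring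
  have e3 : ∏ a ∈ range c, T q M (b + 1 + a - b) = F q M c :=
    prod_congr rfl fun a _ => by congr 1; omega
  rw [e1, e2, e3, show 2 * b + off = b + off + b by ring]
  ring

theorem F_add (q : ℂ) (M x y : ℕ) :
    F q M (x + y) = F q M x * ∏ a ∈ range y, T q M (x + 1 + a) := by
  rw [F, prod_range_add, F]
  congr 1
  exact prod_congr rfl fun a _ => by congr 1; ring

theorem F_succ (q : ℂ) (M x : ℕ) : F q M (x + 1) = F q M x * T q M (x + 1) := prod_range_succ _ _

noncomputable def PP (q : ℂ) (M off : ℕ) (X : Finset ℕ) : ℂ :=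
  (∏ j ∈ X, T q M (2 * j + off)) * W (gg q M off) X

theorem PP_range1 (q : ℂ) (M N : ℕ) : PP q M 1 (range N) = ∏ j ∈ range N, F q M (2 * j + 1) := by
  rw [PP, W, ← prod_mul_distrib]
  refine prod_congr rfl fun j hj => ?_
  rw [filter_lt_range (mem_range.1 hj).le, show 2 * j + 1 = j + (j + 1) by ring, F_add,
    prod_range_succ]
  simp only [gg, prod_mul_distrib, prod_T_sub]
  have e1 : ∏ a ∈ range j, T q M (a + j + 1) = ∏ a ∈ range j, T q M (j + 1 + a) :=
    prod_congr rfl fun a _ => by congr 1; ring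
  rw [e1, show j + (j + 1) = j + 1 + j by ring]
  ring

theorem PP_range2 (q : ℂ) (M N : ℕ) :
    PP q M 2 (range N) * F q M N = ∏ j ∈ range N, F q M (2 * j + 2) := by
  rw [PP, W, F, ← prod_mul_distrib, ← prod_mul_distrib]
  refine prod_congr rfl fun j hj => ?_
  rw [filter_lt_range (mem_range.1 hj).le, show 2 * j + 2 = (j + 1) + (j + 1) by ring, F_add,
    prod_range_succ, F_succ]
  simp only [gg, prod_mul_distrib, prod_T_sub]
  have e1 : ∏ a ∈ range j, T q M (a + j + 2) = ∏ a ∈ range j, T q M (j + 1 + 1 + a) :=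
    prod_congr rfl fun a _ => by congr 1; ring
  rw [e1, show j + 1 + (j + 1) = j + 1 + 1 + j by ring]
  ring

theorem PP_odd (q : ℂ) (k : ℕ) :
    PP q (2 * k + 1) 1 (range k) = E q (2 * k + 1) (2 * k + 1 - 1) ^ k := by
  rw [PP_range1]
  simp only [F_eq, prod_mul_distrib]
  rw [← prod_range_reflect (fun j => E' q (2 * k + 1) (2 * j + 1)), ← prod_mul_distrib,
    prod_congr rfl fun j hj => E_mul_E' q (by have := mem_range.1 hj; omega), prod_const,
    card_range]

theorem E_succ (q : ℂ) (M x : ℕ) : E q M (x + 1) = E q M x * η q M (x + 1) := prod_range_succ _ _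

theorem PP_D (q : ℂ) (N : ℕ) : PP q (2 * N) 1 (range N) =
    E q (2 * N) (2 * N - 1) ^ N * ∏ j ∈ range N, η q (2 * N) (2 * j + 1) := by
  rw [PP_range1]
  simp only [F_eq, prod_mul_distrib, E_succ]
  rw [← prod_range_reflect (fun j => E' q (2 * N) (2 * j + 1)), mul_right_comm, ← prod_mul_distrib,
    prod_congr rfl fun j hj => E_mul_E' q (by have := mem_range.1 hj; omega), prod_const,
    card_range]

theorem PP_C (q : ℂ) (N : ℕ) : PP q (2 * N + 2) 2 (range N) * E q (2 * N + 2) (2 * N + 2 - 1) =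
    E q (2 * N + 2) (2 * N + 2 - 1) ^ N * (∏ j ∈ range N, η q (2 * N + 2) (2 * j + 2)) *
      η q (2 * N + 2) (N + 1) := by
  have h1 := PP_range2 q (2 * N + 2) N
  have h2 := E_mul_E' q (M := 2 * N + 2) (x := N + 1) (y := N) (by ring)
  simp only [F_eq, prod_mul_distrib, E_succ q _ (2 * _ + 1)] at h1
  rw [← prod_range_reflect (fun j => E' q (2 * N + 2) (2 * j + 2)), mul_right_comm (∏ _ ∈ _, _),
    ← prod_mul_distrib,
    prod_congr rfl fun j hj => E_mul_E' q (by have := mem_range.1 hj; omega), prod_const,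
    card_range] at h1
  rw [E_succ] at h2
  linear_combination η q (2 * N + 2) (N + 1) * h1 - PP q (2 * N + 2) 2 (range N) * h2

theorem level_rank_D (q : ℂ) (N : ℕ) {X : Finset ℕ} (h : X ⊆ range N) :
    PP q (2 * N) 1 X * (E q (2 * N) (2 * N - 1) * E q (2 * N) (2 * N - 1)) ^ (range N \ X).card =
      PP q (2 * N) 1 (range N) * W (gg q (2 * N) 1) (range N \ X) := by
  have h1 := W_compl (gg q (2 * N) 1) h
  rw [← prod_const, ← prod_congr rfl fun b hb => (R_eq q (2 * N) 1 (N := N) (b := b)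
    (mem_range.1 (mem_sdiff.1 hb).1)).trans (by
      have := mem_range.1 (mem_sdiff.1 hb).1
      rw [← F_add, F_mul_F q (by omega)]), prod_mul_distrib, PP, PP, ← prod_sdiff h]
  linear_combination ((∏ j ∈ X, T q (2 * N) (2 * j + 1)) *
    ∏ j ∈ range N \ X, T q (2 * N) (2 * j + 1)) * h1

theorem level_rank_C (q : ℂ) (N : ℕ) {X : Finset ℕ} (h : X ⊆ range N) :
    PP q (2 * N + 2) 2 X *
      (E q (2 * N + 2) (2 * N + 2 - 1) * E q (2 * N + 2) (2 * N + 2 - 1)) ^ (range N \ X).card =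
      PP q (2 * N + 2) 2 (range N) * W (gg q (2 * N + 2) 2) (range N \ X) *
        ∏ b ∈ range N \ X, T q (2 * N + 2) (b + 1) * T q (2 * N + 2) (b + 1 + N + 1) := by
  have h1 := W_compl (gg q (2 * N + 2) 2) h
  have h2 : ∀ b ∈ range N \ X, ((∏ a ∈ range N with a < b, gg q (2 * N + 2) 2 a b) *
      ∏ a ∈ range N with b < a, gg q (2 * N + 2) 2 b a) * T q (2 * N + 2) (2 * b + 2) *
      (T q (2 * N + 2) (b + 1) * T q (2 * N + 2) (b + 1 + N + 1)) =
      E q (2 * N + 2) (2 * N + 2 - 1) * E q (2 * N + 2) (2 * N + 2 - 1) := by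
    intro b hb
    have hb' := mem_range.1 (mem_sdiff.1 hb).1
    rw [R_eq q _ 2 hb', ← F_mul_F q (x := b + 1 + N + 1) (y := N - 1 - b) (by omega), F_succ,
      F_add, F_succ]
    ring
  rw [← prod_const, ← prod_congr rfl h2, prod_mul_distrib, prod_mul_distrib, PP, PP,
    ← prod_sdiff h]
  linear_combination ((∏ j ∈ X, T q (2 * N + 2) (2 * j + 2)) *
    (∏ j ∈ range N \ X, T q (2 * N + 2) (2 * j + 2)) *
      ∏ b ∈ range N \ X, T q (2 * N + 2) (b + 1) * T q (2 * N + 2) (b + 1 + N + 1)) * h1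

theorem W_image (g : ℕ → ℕ → ℂ) {k : ℕ} {u : Fin k → ℕ} (hu : StrictMono u) :
    W g (univ.image u) = ∏ j : Fin k, ∏ i ∈ Iio j, g (u i) (u j) := by
  rw [W, prod_image fun a _ b _ h => hu.injective h]
  refine prod_congr rfl fun j _ => ?_
  rw [filter_image, prod_image fun a _ b _ h => hu.injective h]
  refine prod_congr ?_ fun _ _ => rfl
  ext i
  simp [hu.lt_iff_lt]

end Pool.Agent.H340Z.CM
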