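import Mathlib

set_option autoImplicit false

namespace Pool.Agent.H340Z.CM

open Filter Topology Finset

/-- infinite q-Pochhammer symbol -/
noncomputable def poch (z q : ℂ) : ℂ := ∏' j : ℕ, (1 - z * q ^ j)

/-- finite q-factorial -/
noncomputable def P (q : ℂ) (n : ℕ) : ℂ := ∏ j ∈ range n, (1 - q * q ^ j)

noncomputable def ip (q : ℂ) (n : ℤ) : ℂ := if n < 0 then 0 else (P q n.toNat)⁻¹

noncomputable def bin (q : ℂ) (L : ℕ) (U : ℤ) : ℂ := P q L * ip q U * ip q (L - U)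

theorem summ_geo (z : ℂ) {q : ℂ} (hq : ‖q‖ < 1) : Summable fun j : ℕ => ‖-(z * q ^ j)‖ := by
  simp only [norm_neg, norm_mul, norm_pow]
  exact (summable_geometric_of_lt_one (norm_nonneg _) hq).mul_left _

theorem mult_poch (z : ℂ) {q : ℂ} (hq : ‖q‖ < 1) :
    Multipliable fun j : ℕ => 1 - z * q ^ j := by
  simpa [sub_eq_add_neg] using multipliable_one_add_of_summable (summ_geo z hq)

theorem poch_ne {z q : ℂ} (hq : ‖q‖ < 1) (h : ∀ j : ℕ, 1 - z * q ^ j ≠ 0) : poch z q ≠ 0 := by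
  have := tprod_one_add_ne_zero_of_summable (f := fun j : ℕ => -(z * q ^ j))
    (by simpa [sub_eq_add_neg] using h) (summ_geo z hq)
  simpa [poch, sub_eq_add_neg] using this

theorem one_sub_ne {z : ℂ} (hz : ‖z‖ < 1) : 1 - z ≠ 0 := by
  intro h
  have : z = 1 := by linear_combination -h
  simp [this] at hz

theorem poch_ne' {z q : ℂ} (hq : ‖q‖ < 1) (hz : ‖z‖ < 1) : poch z q ≠ 0 := by
  refine poch_ne hq fun j => one_sub_ne ?_
  rw [norm_mul, norm_pow]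
  have h1 : ‖q‖ ^ j ≤ 1 := pow_le_one₀ (norm_nonneg _) hq.le
  nlinarith [norm_nonneg z, pow_nonneg (norm_nonneg q) j]

theorem tendsto_poch (z : ℂ) {q : ℂ} (hq : ‖q‖ < 1) :
    Tendsto (fun n => ∏ j ∈ range n, (1 - z * q ^ j)) atTop (𝓝 (poch z q)) :=
  (mult_poch z hq).hasProd.tendsto_prod_nat

theorem P_ne {q : ℂ} (hq : ‖q‖ < 1) (n : ℕ) : P q n ≠ 0 := by
  refine prod_ne_zero_iff.2 fun j _ => one_sub_ne ?_
  rw [norm_mul, norm_pow]
  have h1 : ‖q‖ ^ j ≤ 1 := pow_le_one₀ (norm_nonneg _) hq.le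
  nlinarith [norm_nonneg q, pow_nonneg (norm_nonneg q) j]

theorem P_succ (q : ℂ) (n : ℕ) : P q (n + 1) = P q n * (1 - q ^ (n + 1)) := by
  rw [P, prod_range_succ, P]; ring

theorem ip_pred {q : ℂ} (hq : ‖q‖ < 1) (n : ℤ) : ip q (n - 1) = (1 - q ^ n) * ip q n := by
  rcases lt_trichotomy n 0 with h | h | h
  · simp [ip, h, show n - 1 < 0 by omega]
  · subst h; simp [ip]
  · obtain ⟨m, rfl⟩ : ∃ m : ℕ, n = (m : ℤ) + 1 := ⟨(n - 1).toNat, by omega⟩
    have h1 : ¬ ((m : ℤ) + 1 - 1 < 0) := by omega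
    have h2 : ¬ ((m : ℤ) + 1 < 0) := by omega
    have h3 : ((m : ℤ) + 1 - 1).toNat = m := by omega
    have h4 : ((m : ℤ) + 1).toNat = m + 1 := by omega
    have h5 : q ^ ((m : ℤ) + 1) = q ^ (m + 1) := by norm_cast
    simp only [ip, h1, h2, if_false, h3, h4, P_succ, h5]
    have h6 := P_ne hq m
    have h7 : (1 - q ^ (m + 1)) ≠ 0 := by
      have := P_ne hq (m + 1)
      rw [P_succ] at this
      exact right_ne_zero_of_mul this
    field_simp

theorem pascal1 {q : ℂ} (hq : ‖q‖ < 1) (h0 : q ≠ 0) (L : ℕ) (U : ℤ) :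
    bin q (L + 1) U = q ^ ((L : ℤ) + 1 - U) * bin q L (U - 1) + bin q L U := by
  have e1 : ((L : ℤ) - (U - 1)) = ((L + 1 : ℕ) : ℤ) - U := by push_cast; ring
  have e2 : ((L : ℤ) - U) = (((L + 1 : ℕ) : ℤ) - U) - 1 := by push_cast; ring
  have e3 : (L : ℤ) + 1 - U = ((L + 1 : ℕ) : ℤ) - U := by push_cast; ring
  have e4 : q ^ (L + 1) = q ^ (((L + 1 : ℕ) : ℤ) - U) * q ^ U := by
    rw [← zpow_add₀ h0, sub_add_cancel, zpow_natCast]
  simp only [bin]
  rw [e1, e2, e3, ip_pred hq, ip_pred hq, P_succ, e4]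
  ring

theorem pascal2 {q : ℂ} (hq : ‖q‖ < 1) (h0 : q ≠ 0) (L : ℕ) (U : ℤ) :
    bin q (L + 1) U = bin q L (U - 1) + q ^ U * bin q L U := by
  have e1 : ((L : ℤ) - (U - 1)) = ((L + 1 : ℕ) : ℤ) - U := by push_cast; ring
  have e2 : ((L : ℤ) - U) = (((L + 1 : ℕ) : ℤ) - U) - 1 := by push_cast; ring
  have e4 : q ^ (L + 1) = q ^ (((L + 1 : ℕ) : ℤ) - U) * q ^ U := by
    rw [← zpow_add₀ h0, sub_add_cancel, zpow_natCast]
  simp only [bin]
  rw [e1, e2, ip_pred hq, ip_pred hq, P_succ, e4]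
  ring

theorem bin_symm (q : ℂ) (L : ℕ) (U : ℤ) : bin q L (L - U) = bin q L U := by
  simp only [bin, sub_sub_cancel]; ring

theorem bin_zero (q : ℂ) (U : ℤ) : bin q 0 U = if U = 0 then 1 else 0 := by
  rcases lt_trichotomy U 0 with h | h | h
  · simp [bin, ip, h, h.ne]
  · subst h; simp [bin, ip, P]
  · simp [bin, ip, h, h.ne']

theorem tendsto_P {q : ℂ} (hq : ‖q‖ < 1) : Tendsto (P q) atTop (𝓝 (poch q q)) :=
  tendsto_poch q hq

theorem tendsto_ip {q : ℂ} (hq : ‖q‖ < 1) : Tendsto (ip q) atTop (𝓝 (poch q q)⁻¹) := by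
  have h0 : Tendsto (fun n : ℤ => n.toNat) atTop atTop := by
    refine tendsto_atTop.2 fun b => ?_
    filter_upwards [eventually_ge_atTop (b : ℤ)] with n hn
    omega
  have h1 : Tendsto (fun n : ℤ => (P q n.toNat)⁻¹) atTop (𝓝 (poch q q)⁻¹) :=
    ((tendsto_P hq).inv₀ (poch_ne' hq hq)).comp h0
  refine h1.congr' ?_
  filter_upwards [eventually_ge_atTop 0] with n hn
  simp [ip, not_lt.2 hn]

theorem bin_bdd {q : ℂ} (hq : ‖q‖ < 1) : ∃ C : ℝ, 0 ≤ C ∧ ∀ L U, ‖bin q L U‖ ≤ C := by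
  obtain ⟨C1, h1⟩ := (tendsto_P hq).norm.bddAbove_range
  obtain ⟨C2, h2⟩ := ((tendsto_P hq).inv₀ (poch_ne' hq hq)).norm.bddAbove_range
  have h1' : ∀ n, ‖P q n‖ ≤ C1 := fun n => h1 ⟨n, rfl⟩
  have h2' : ∀ n, ‖(P q n)⁻¹‖ ≤ C2 := fun n => h2 ⟨n, rfl⟩
  have hC2 : 0 ≤ C2 := (norm_nonneg _).trans (h2' 0)
  have hC1 : 0 ≤ C1 := (norm_nonneg _).trans (h1' 0)
  have h3 : ∀ n, ‖ip q n‖ ≤ C2 := by
    intro n; unfold ip; split_ifs
    · simpa using hC2
    · exact h2' _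
  refine ⟨C1 * C2 * C2, by positivity, fun L U => ?_⟩
  rw [bin, norm_mul, norm_mul]
  gcongr
  · exact h1' _
  · exact h3 _
  · exact h3 _

theorem tendsto_bin {q : ℂ} (hq : ‖q‖ < 1) {L : ℕ → ℕ} {U : ℕ → ℤ} (hL : Tendsto L atTop atTop)
    (hU : Tendsto U atTop atTop) (hD : Tendsto (fun n => (L n : ℤ) - U n) atTop atTop) :
    Tendsto (fun n => bin q (L n) (U n)) atTop (𝓝 (poch q q)⁻¹) := by
  have h := (((tendsto_P hq).comp hL).mul ((tendsto_ip hq).comp hU)).mul ((tendsto_ip hq).comp hD)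
  have e : poch q q * (poch q q)⁻¹ * (poch q q)⁻¹ = (poch q q)⁻¹ := by
    rw [mul_inv_cancel₀ (poch_ne' hq hq), one_mul]
  rw [e] at h
  exact h

/-- ratio test with step `d` -/
theorem summable_step {u : ℕ → ℝ} (hu : ∀ n, 0 ≤ u n) (d : ℕ)
    (h : ∀ᶠ n in atTop, u (n + d) ≤ u n / 2) : Summable u := by
  obtain ⟨N, hN⟩ := eventually_atTop.1 h
  rw [← summable_nat_add_iff N]
  refine summable_of_sum_range_le (c := 2 * ∑ i ∈ range d, u (i + N)) (fun n => hu _) fun n => ?_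
  have h1 : ∑ i ∈ range (d + n), u (i + N) =
      ∑ i ∈ range d, u (i + N) + ∑ i ∈ range n, u (d + i + N) := sum_range_add _ _ _
  have h2 : ∑ i ∈ range n, u (d + i + N) ≤ (∑ i ∈ range n, u (i + N)) / 2 := by
    rw [sum_div]
    refine sum_le_sum fun i _ => ?_
    have := hN (i + N) (by omega)
    rwa [show i + N + d = d + i + N by ring] at this
  have h3 : ∑ i ∈ range n, u (i + N) ≤ ∑ i ∈ range (d + n), u (i + N) :=
    sum_le_sum_of_subset_of_nonneg (range_subset_range.2 (by omega)) fun i _ _ => hu _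
  linarith

theorem summable_qp {Q κ : ℂ} (hQ : ‖Q‖ < 1) (h0 : Q ≠ 0) (hκ : κ ≠ 0) (d : ℕ) {c : ℤ → ℂ}
    (h : ∀ n, c (n + d) = κ * Q ^ n * c n) : Summable fun n => ‖c n‖ := by
  have key : ∀ A : ℝ, ∀ᶠ n : ℕ in atTop, A * ‖Q‖ ^ n ≤ 1 / 2 := by
    intro A
    have := (tendsto_pow_atTop_nhds_zero_of_lt_one (norm_nonneg Q) hQ).const_mul A
    rw [mul_zero] at this
    exact this.eventually (ge_mem_nhds (by norm_num))
  refine Summable.of_nat_of_neg ?_ ?_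
  · refine summable_step (fun n => norm_nonneg _) d ?_
    filter_upwards [key ‖κ‖] with n hn
    push_cast
    rw [h, norm_mul, norm_mul, zpow_natCast, norm_pow]
    nlinarith [norm_nonneg (c n)]
  · refine summable_step (fun n => norm_nonneg _) d ?_
    filter_upwards [key (‖κ⁻¹‖ * ‖Q‖ ^ d)] with n hn
    have h1 := h (-((n + d : ℕ) : ℤ))
    have h2 : c (-((n + d : ℕ) : ℤ)) = κ⁻¹ * Q ^ d * Q ^ n * c (-(n : ℤ)) := by
      rw [show (-((n + d : ℕ) : ℤ)) + d = -(n : ℤ) by push_cast; ring, zpow_neg, zpow_natCast]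
        at h1
      rw [h1, pow_add]
      field_simp
    rw [h2, norm_mul, norm_mul, norm_mul, norm_pow, norm_pow]
    nlinarith [norm_nonneg (c (-(n : ℤ)))]

end Pool.Agent.H340Z.CM
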