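import Pool.Agent.H340Z.CM.Comb
import Pool.Agent.H340Z.CM.Lim

set_option autoImplicit false
set_option maxHeartbeats 400000

namespace Pool.Agent.H340Z.CM

open Filter Topology Finset

theorem hasSum_of_exhaust {α : Type} (A : ℕ → Finset α) (hA : Monotone A) (w : α → ℕ)
    (Gq : ℂ → ℂ) (h : ∀ q : ℂ, ‖q‖ < 1 → q ≠ 0 →
      Tendsto (fun L => ∑ a ∈ A L, q ^ w a) atTop (𝓝 (Gq q))) {q : ℂ} (hq : ‖q‖ < 1)
    (h0 : q ≠ 0) :
    HasSum (fun N : ℕ => (({a | (∃ L, a ∈ A L) ∧ w a = N}.ncard : ℕ) : ℂ) * q ^ N) (Gq q) := by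
  classical
  set S : Set α := {a | ∃ L, a ∈ A L} with hS
  set B : ℕ → Finset S := fun L => (A L).subtype (· ∈ S) with hB
  have hBm : Monotone B := fun a b hab => subtype_mono (hA hab)
  have hBt : Tendsto B atTop atTop := tendsto_atTop_finset_of_monotone hBm fun x => by
    obtain ⟨L, hL⟩ := x.2
    exact ⟨L, by simpa [hB] using hL⟩
  have hsum : ∀ (L : ℕ) (z : ℂ), ∑ a ∈ B L, z ^ w a = ∑ a ∈ A L, z ^ w a := fun L z =>
    sum_subtype_of_mem (fun a => z ^ w a) fun a ha => ⟨L, ha⟩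
  have hs : Summable fun a : S => q ^ w a := by
    have h1 := h (‖q‖ : ℂ) (by simpa using hq) (by simpa using h0)
    obtain ⟨C, hC⟩ := h1.norm.bddAbove_range
    refine Summable.of_norm (summable_of_sum_le (c := C) (fun _ => norm_nonneg _) fun u => ?_)
    obtain ⟨L, hL⟩ := (hBt.eventually (eventually_ge_atTop u)).exists
    refine (sum_le_sum_of_subset_of_nonneg hL fun _ _ _ => norm_nonneg _).trans ?_
    refine le_trans (le_of_eq ?_) (hC ⟨L, rfl⟩)
    dsimp only
    rw [← hsum]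
    simp only [norm_pow]
    norm_cast
    rw [Real.norm_of_nonneg (sum_nonneg fun _ _ => by positivity)]
  have h2 : HasSum (fun a : S => q ^ w a) (Gq q) := by
    have h3 := (hs.hasSum : Tendsto _ atTop _).comp hBt
    have h4 : (fun s => ∑ a ∈ s, q ^ w (a : S)) ∘ B = fun L => ∑ a ∈ A L, q ^ w a :=
      funext fun L => hsum L q
    rw [h4] at h3
    rw [← tendsto_nhds_unique h3 (h q hq h0)]
    exact hs.hasSum
  have h5 := ((Equiv.sigmaFiberEquiv fun a : S => w a).hasSum_iff.2 h2)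
  refine h5.sigma fun N => ?_
  have h6 : (fun c : {a : S // w a = N} =>
      ((fun a : S => q ^ w a) ∘ (Equiv.sigmaFiberEquiv fun a : S => w a)) ⟨N, c⟩) =
      fun _ => q ^ N := funext fun c => by simp [Equiv.sigmaFiberEquiv, c.2]
  rw [h6]
  have h7 : Summable fun _ : {a : S // w a = N} => q ^ N := by
    rw [← h6]; exact h5.summable.sigma_factor N
  have hfin : Finite {a : S // w a = N} := by
    by_contra hinf
    rw [not_finite_iff_infinite] at hinf
    exact pow_ne_zero N h0 ((summable_const_iff _).1 h7)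
  have := Fintype.ofFinite {a : S // w a = N}
  convert hasSum_fintype (fun _ : {a : S // w a = N} => q ^ N) using 1
  rw [sum_const, card_univ, nsmul_eq_mul, ← Nat.card_coe_set_eq, ← Nat.card_eq_fintype_card]
  congr 2
  exact Nat.card_congr ⟨fun a => ⟨⟨a.1, a.2.1⟩, a.2.2⟩, fun a => ⟨a.1.1, a.1.2, a.2⟩,
    fun _ => rfl, fun _ => rfl⟩

noncomputable def wInf (m : ℕ) {k : ℕ} (h : ℕ → St k) : ℕ :=
  ∑ᶠ i, (i + 1) * val m (h i) (h (i + 1)) (h (i + 2))

theorem val_gr {m k : ℕ} {σ : ℤ} (x z : St k) (i : ℕ) : val m x (gr m k σ i) z = 0 := by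
  rw [val, card_eq_zero, filter_eq_empty_iff]
  intro t _ h
  simp only [gr] at h
  split_ifs at h <;> omega

theorem wInf_eq {m k : ℕ} {h : ℕ → St k} {L : ℕ}
    (hL : ∀ i, L ≤ i → val m (h i) (h (i + 1)) (h (i + 2)) = 0) : wInf m h = wt m L h := by
  refine finsum_eq_sum_of_support_subset _ fun i hi => ?_
  by_contra hc
  simp only [coe_range, Set.mem_Iio, not_lt] at hc
  simp [hL i hc] at hi

theorem walk_iff {m k : ℕ} {x0 : St k} {σ : ℤ} {h : ℕ → St k} :
    (∃ L, h ∈ Hist m x0 L (gr m k σ)) ↔ Walk m x0 σ h := by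
  simp only [mem_Hist]
  constructor
  · rintro ⟨L, h1, h2, h3⟩
    refine ⟨h1, fun i => ?_, L, h3⟩
    rcases lt_or_ge i L with hi | hi
    · exact h2 i hi
    · rw [h3 i hi, h3 (i + 1) (by omega)]
      exact ⟨gr_valid _ _ _ _, gr_step _ _ _ _⟩
  · rintro ⟨h1, h2, L, h3⟩
    exact ⟨L, h1, fun i _ => h2 i, h3⟩

theorem Hist_mono {m k : ℕ} (x0 : St k) (σ : ℤ) : Monotone fun L => Hist m x0 L (gr m k σ) := by
  intro L L' hL h hh
  have hw := walk_iff.1 ⟨L, hh⟩
  rw [mem_Hist] at hh ⊢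
  exact ⟨hh.1, fun i _ => hw.2.1 i, fun i hi => hh.2.2 i (hL.trans hi)⟩

theorem val_eq {m k : ℕ} {h : ℕ → St k} (i : ℕ) (hv : Valid m (h (i + 1))) :
    val m (h i) (h (i + 1)) (h (i + 2)) = ∑ c ∈ Icc 1 m, Phi m h (i + 1) c := by
  rw [val, card_eq_sum_card_fiberwise (f := fun t => (h (i + 1) t).toNat) (t := Icc 1 m)]
  · refine sum_congr rfl fun c hc => ?_
    rw [filter_filter, Phi]
    congr 1
    refine filter_congr fun t _ => ?_
    have := (hv.2 t).1
    have := mem_Icc.1 hc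
    omega
  · intro t ht
    have := (hv.2 t).1
    simp only [coe_filter, mem_univ, true_and, Set.mem_ofPred_eq] at ht
    simp only [coe_Icc, Set.mem_Icc]
    omega

theorem wt_eq {m k : ℕ} {x0 : St k} {σ : ℤ} {h : ℕ → St k} (hw : Walk m x0 σ h) (N : ℕ) :
    wt m N h = ∑ i ∈ range (N + 1), ∑ c ∈ Icc 1 m, i * Phi m h i c := by
  rw [sum_range_succ', wt]
  simp only [zero_mul, sum_const_zero, add_zero]
  exact sum_congr rfl fun i _ => by rw [val_eq i (hw.2.1 _).1, mul_sum]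

def SN (m : ℕ) {k : ℕ} (x0 : St k) (σ : ℤ) (N : ℕ) : Set (ℕ → ℕ → ℕ) :=
  {f | (∀ i c, f i c ≠ 0 → 1 ≤ i ∧ i ≤ N ∧ 1 ≤ c ∧ c ≤ m ∧ ((i : ℤ) + c - σ) % 2 = 0) ∧
    (∑ i ∈ range (N + 1), ∑ c ∈ Icc 1 m, i * f i c) = N ∧ Adm m x0 σ f}

theorem image_walk {m k : ℕ} {x0 : St k} {σ : ℤ} (hσ : ∀ t, (x0 t - σ) % 2 = 0) (hx : Valid m x0)
    (N : ℕ) : Phi m '' {h | Walk m x0 σ h ∧ wInf m h = N} = SN m x0 σ N := by
  ext f
  constructor
  · rintro ⟨h, ⟨hw, hN⟩, rfl⟩
    obtain ⟨L, hL⟩ := hw.2.2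
    have h1 : ∀ i, N ≤ i → val m (h i) (h (i + 1)) (h (i + 2)) = 0 := by
      intro i hi
      rw [wInf_eq (L := L + i + 1) fun j hj => by rw [hL (j + 1) (by omega), val_gr], wt] at hN
      have := single_le_sum (f := fun i => (i + 1) * val m (h i) (h (i + 1)) (h (i + 2)))
        (fun _ _ => Nat.zero_le _) (mem_range.2 (show i < L + i + 1 by omega))
      rw [hN] at this
      by_contra hne
      have : (i + 1) * 1 ≤ (i + 1) * val m (h i) (h (i + 1)) (h (i + 2)) :=
        Nat.mul_le_mul_left _ (by omega)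
      omega
    refine ⟨fun i c hne => ?_, ?_, hw.adm hσ⟩
    · have h2 := hw.supp hσ hne
      refine ⟨h2.1, ?_, h2.2⟩
      by_contra hi
      obtain ⟨i, rfl⟩ : ∃ j, i = j + 1 := ⟨i - 1, by omega⟩
      have h3 := h1 i (by omega)
      rw [val_eq i (hw.2.1 _).1, sum_eq_zero_iff] at h3
      exact hne (h3 c (mem_Icc.2 ⟨h2.2.1, h2.2.2.1⟩))
    · rw [← wt_eq hw, ← wInf_eq h1, hN]
  · rintro ⟨h1, h2, h3⟩
    obtain ⟨h, hw, rfl⟩ := exists_walk hσ hx h1 h3
    refine ⟨h, ⟨hw, ?_⟩, rfl⟩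
    rw [wInf_eq (L := N), wt_eq hw, h2]
    intro i hi
    rw [val_eq i (hw.2.1 _).1]
    refine sum_eq_zero fun c _ => ?_
    by_contra hne
    have := h1 _ _ hne
    omega

theorem SN_zero {m k : ℕ} {x0 : St k} {σ : ℤ} (hσ : ∀ t, (x0 t - σ) % 2 = 0) (hx : Valid m x0) :
    SN m x0 σ 0 = {fun _ _ => 0} := by
  have h1 : ∀ f ∈ SN m x0 σ 0, f = fun _ _ => 0 := by
    intro f hf
    funext i c
    by_contra hne
    have := hf.1 i c hne
    omega
  refine Set.eq_singleton_iff_unique_mem.2 ⟨?_, h1⟩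
  have hw : Walk m x0 σ fun i t => min (x0 t + i) (gr m k σ i t) := by
    refine ⟨funext fun t => ?_, fun i => ⟨⟨fun s t hst => ?_, fun t => ?_⟩, fun t => ?_⟩, m + 2,
      fun i hi => funext fun t => ?_⟩
    · have := hσ t
      have := hx.2 t
      simp only [gr]; split_ifs <;> omega
    · have := hx.1 hst
      simp only [gr]; omega
    · have := hx.2 t
      simp only [gr]; split_ifs <;> omega
    · have := hσ t
      have := hx.2 t
      simp only [gr]; push_cast; split_ifs <;> omega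
    · have := hx.2 t
      simp only [gr]; split_ifs <;> omega
  have h2 : Phi m (fun i t => min (x0 t + i) (gr m k σ i t)) ∈ SN m x0 σ 0 := by
    rw [← image_walk hσ hx]
    refine ⟨_, ⟨hw, ?_⟩, rfl⟩
    rw [wInf_eq (L := 0), wt, range_zero, sum_empty]
    intro i _
    rw [val, card_eq_zero, filter_eq_empty_iff]
    intro t _ h
    simp only [gr] at h
    push_cast at h
    split_ifs at h <;> omega
  exact h1 _ h2 ▸ h2

theorem η_zero {M j : ℕ} (hj : 0 < j) : η 0 M j = 1 := by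
  simp [η, poch, zero_pow hj.ne']

theorem T_zero {M j : ℕ} (hj : 0 < j) (hM : j < M) : T 0 M j = 1 := by
  rw [T, η_zero hj, η_zero (by omega), one_mul]

theorem gf_adm {q : ℂ} (hq : ‖q‖ < 1) (m k off : ℕ) (u : Fin k → ℕ)
    (hu : StrictMono u) (x0 : St k) (hx0 : ∀ t, x0 t + 2 * (t : ℕ) = 2 * u t + off)
    (hx : Valid m x0) :
    HasSum (fun N : ℕ => (((SN m x0 off N).ncard : ℕ) : ℂ) * q ^ N)
      ((E q (m + 2 * k + 1) (m + 2 * k + 1 - 1))⁻¹ ^ k *
        PP q (m + 2 * k + 1) off (univ.image u)) := by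
  have hσ : ∀ t, (x0 t - off) % 2 = 0 := fun t => by have := hx0 t; omega
  by_cases h0 : q = 0
  · subst h0
    have hb : ∀ t, 1 ≤ 2 * u t + off ∧ 2 * u t + off ≤ m + 2 * k := by
      intro t
      have := hx0 t
      have := hx.2 t
      have := t.2
      omega
    have e1 : E 0 (m + 2 * k + 1) (m + 2 * k + 1 - 1) = 1 :=
      prod_eq_one fun _ _ => η_zero (Nat.succ_pos _)
    have e2 : PP 0 (m + 2 * k + 1) off (univ.image u) = 1 := by
      rw [PP, W_image _ hu, prod_image fun a _ b _ h => hu.injective h, prod_eq_one, prod_eq_one,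
        one_mul]
      · intro j _
        refine prod_eq_one fun i hi => ?_
        have := hb i
        have := hb j
        have : u i < u j := hu (mem_Iio.1 hi)
        rw [gg, T_zero (by omega) (by omega), T_zero (by omega) (by omega), one_mul]
      · intro j _
        have := hb j
        exact T_zero (by omega) (by omega)
    rw [e1, e2]
    convert hasSum_single (f := fun N : ℕ => (((SN m x0 off N).ncard : ℕ) : ℂ) * 0 ^ N) 0
      (fun N hN => by simp [hN]) using 1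
    simp [SN_zero hσ hx]
  · have := hasSum_of_exhaust (fun L => Hist m x0 L (gr m k off)) (Hist_mono x0 off) (wInf m)
      (fun q => (E q (m + 2 * k + 1) (m + 2 * k + 1 - 1))⁻¹ ^ k *
        PP q (m + 2 * k + 1) off (univ.image u)) (fun q hq h0 => by
          refine (lim_walk hq h0 m k off u hu x0 hx0 hx).congr fun L => sum_congr rfl fun h hh => ?_
          rw [wInf_eq (L := L)]
          intro i hi
          rw [((mem_Hist L).1 hh).2.2 (i + 1) (by omega), val_gr]) hq h0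
    convert this using 4 with N
    simp only [walk_iff]
    rw [← image_walk hσ hx, Set.InjOn.ncard_image]
    exact fun a ha b hb e => ha.1.inj hσ hb.1 e

end Pool.Agent.H340Z.CM
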